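import Pool.Agent.H49.RW.Dn

/-!
# [H49 RW BLK] The block function

PROOFS: copy `Pool/Agent/H67/RG/Blk.lean` with `pc` replaced by `cq Q`, `Real.log X` by `L`, `fb X h s` by `fq Q L X h s`. `cq_add`: as `blk_add` there.
`fq_energy`: as `fb_energy`, but the second moment is the hypothesis `Enr` with the length `2 h` (`L ≤ h ≤ 2 h ≤ 3 X`), and the sum in `Enr` is over `n ∈ Ioc 0 (3 X)`
instead of `range (3 X)`: the values `n = s + i h - r` (`i ≥ 1`, `r < h`) are `≥ 1` and `≤ 3 X`. `∑_i (fq i)² ≤ (L/h)² · C (2h)² X/L² / h = 4 C X/h`.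
-/

set_option autoImplicit false

namespace Pool.Agent.H49.RW

open Finset Pool.Agent.H5.Short Pool.Agent.H67.RG

theorem cq_add (Q : ℕ → Prop) (a m k : ℕ) : cq Q a (m + k) = cq Q a m + cq Q (a + m) k := by
  classical
  unfold cq
  rw [← card_union_of_disjoint]
  · congr 1
    ext p
    simp only [mem_filter, mem_Ioc, mem_union]
    constructor
    · rintro ⟨⟨h1, h2⟩, h3⟩
      by_cases h4 : p ≤ a + m
      · left; exact ⟨⟨h1, h4⟩, h3⟩
      · right; exact ⟨⟨by omega, by omega⟩, h3⟩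
    · rintro (⟨⟨h1, h2⟩, h3⟩ | ⟨⟨h1, h2⟩, h3⟩)
      · exact ⟨⟨h1, by omega⟩, h3⟩
      · exact ⟨⟨by omega, by omega⟩, h3⟩
  · rw [disjoint_left]
    intro p hp hp'
    rw [mem_filter, mem_Ioc] at hp hp'
    omega

theorem fq_nonneg (Q : ℕ → Prop) {L : ℝ} (hL : 0 ≤ L) (X h s : ℕ) (i : ℤ) : 0 ≤ fq Q L X h s i := by
  unfold fq
  split_ifs
  · positivity
  · exact le_rfl

theorem fq_supp (Q : ℕ → Prop) (L : ℝ) (X h s m : ℕ) (hh : 1 ≤ h) (hm : 3 * X ≤ 2 ^ m * h) :
    Supp (fq Q L X h s) m := by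
  intro i hi
  unfold fq
  rw [if_neg]
  rintro ⟨h1, h2⟩
  apply hi
  unfold Rt
  rw [mem_Ico]
  refine ⟨by omega, ?_⟩
  by_contra hc
  push Not at hc
  obtain ⟨n, rfl⟩ := Int.eq_ofNat_of_zero_le (by omega : 0 ≤ i)
  rw [Int.toNat_natCast] at h2
  have h3 : 2 ^ m ≤ n := by exact_mod_cast hc
  have h4 := Nat.mul_le_mul_right h h3
  nlinarith

theorem fq_energy {Q : ℕ → Prop} {L C : ℝ} {X : ℕ} (hL : 0 < L) (hE : Enr Q L X C) (h s : ℕ)
    (hl : L ≤ h) (h2 : 2 * h ≤ 3 * X) (hs : s < h) (R : Finset ℤ) :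
    ∑ i ∈ R, (fq Q L X h s i) ^ 2 ≤ 4 * C * ((X : ℝ) / h) := by
  classical
  have hh : 0 < h := by omega
  have hhR : (0 : ℝ) < h := by exact_mod_cast hh
  have hs1 := hE (2 * h) (by push_cast; linarith) h2
  obtain ⟨R', hR'⟩ : ∃ R' : Finset ℤ, R' = R.filter (fun i => 1 ≤ i ∧ s + (i.toNat + 1) * h ≤ 3 * X) := ⟨_, rfl⟩
  have h1 : ∑ i ∈ R, (fq Q L X h s i) ^ 2 = (L / h) ^ 2 * ∑ i ∈ R', (cq Q (s + i.toNat * h) h : ℝ) ^ 2 := by
    rw [hR', sum_filter, mul_sum]
    refine sum_congr rfl fun i _ => ?_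
    unfold fq
    split_ifs
    · ring
    · ring
  have h2 : (h : ℝ) * ∑ i ∈ R', (cq Q (s + i.toNat * h) h : ℝ) ^ 2 ≤ ∑ n ∈ Ioc 0 (3 * X), (cq Q n (2 * h) : ℝ) ^ 2 := by
    have h3 : (h : ℝ) * ∑ i ∈ R', (cq Q (s + i.toNat * h) h : ℝ) ^ 2 =
        ∑ x ∈ R' ×ˢ range h, (cq Q (s + x.1.toNat * h) h : ℝ) ^ 2 := by
      rw [sum_product, mul_sum]
      refine sum_congr rfl fun i _ => ?_
      simp only [sum_const, card_range, nsmul_eq_mul]
    have hmem : ∀ x ∈ R' ×ˢ range h, 1 ≤ x.1.toNat ∧ s + (x.1.toNat + 1) * h ≤ 3 * X ∧ x.2 < h ∧ 1 ≤ x.1 := by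
      intro x hx
      rw [mem_product, hR', mem_filter, mem_range] at hx
      exact ⟨by omega, hx.1.2.2, hx.2, hx.1.2.1⟩
    have hinj : Set.InjOn (fun x : ℤ × ℕ => s + x.1.toNat * h - x.2) (R' ×ˢ range h : Finset (ℤ × ℕ)) := by
      intro x hx y hy hxy
      obtain ⟨hx1, -, hx2, hx3⟩ := hmem x hx
      obtain ⟨hy1, -, hy2, hy3⟩ := hmem y hy
      have hxy' : s + x.1.toNat * h - x.2 = s + y.1.toNat * h - y.2 := hxy
      have hxh : h ≤ x.1.toNat * h := Nat.le_mul_of_pos_left h hx1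
      have hyh : h ≤ y.1.toNat * h := Nat.le_mul_of_pos_left h hy1
      have h4 : x.1.toNat = y.1.toNat := by
        rcases lt_trichotomy x.1.toNat y.1.toNat with hc | hc | hc
        · have h5 : (x.1.toNat + 1) * h ≤ y.1.toNat * h := Nat.mul_le_mul_right h hc
          rw [add_mul, one_mul] at h5
          omega
        · exact hc
        · have h5 : (y.1.toNat + 1) * h ≤ x.1.toNat * h := Nat.mul_le_mul_right h hc
          rw [add_mul, one_mul] at h5
          omega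
      have h5 : x.2 = y.2 := by
        rw [h4] at hxy' hxh
        omega
      exact Prod.ext (by omega) h5
    rw [h3]
    calc ∑ x ∈ R' ×ˢ range h, (cq Q (s + x.1.toNat * h) h : ℝ) ^ 2
        ≤ ∑ x ∈ R' ×ˢ range h, (cq Q (s + x.1.toNat * h - x.2) (2 * h) : ℝ) ^ 2 := by
          refine sum_le_sum fun x hx => ?_
          obtain ⟨hx1, -, hx2, hx3⟩ := hmem x hx
          have hxh : h ≤ x.1.toNat * h := Nat.le_mul_of_pos_left h hx1
          refine pow_le_pow_left₀ (Nat.cast_nonneg _) ?_ 2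
          have h6 : cq Q (s + x.1.toNat * h) h ≤ cq Q (s + x.1.toNat * h - x.2) (2 * h) := by
            unfold cq
            apply card_le_card
            apply filter_subset_filter
            intro p hp
            rw [mem_Ioc] at hp ⊢
            omega
          exact_mod_cast h6
      _ = ∑ n ∈ (R' ×ˢ range h).image (fun x : ℤ × ℕ => s + x.1.toNat * h - x.2), (cq Q n (2 * h) : ℝ) ^ 2 := by
          rw [sum_image hinj]
      _ ≤ ∑ n ∈ Ioc 0 (3 * X), (cq Q n (2 * h) : ℝ) ^ 2 := by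
          apply sum_le_sum_of_subset_of_nonneg
          · intro n hn
            rw [mem_image] at hn
            obtain ⟨x, hx, rfl⟩ := hn
            obtain ⟨hx1, hx4, hx2, hx3⟩ := hmem x hx
            have hxh : h ≤ x.1.toNat * h := Nat.le_mul_of_pos_left h hx1
            rw [add_mul, one_mul] at hx4
            rw [mem_Ioc]
            omega
          · exact fun _ _ _ => sq_nonneg _
  rw [h1]
  have h3 := h2.trans hs1
  have h4 : (L / h) ^ 2 * ∑ i ∈ R', (cq Q (s + i.toNat * h) h : ℝ) ^ 2 =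
      L ^ 2 / (h : ℝ) ^ 3 * ((h : ℝ) * ∑ i ∈ R', (cq Q (s + i.toNat * h) h : ℝ) ^ 2) := by
    field_simp
  rw [h4]
  refine (mul_le_mul_of_nonneg_left h3 (by positivity)).trans (le_of_eq ?_)
  push_cast
  field_simp
  ring

theorem fq_sum (Q : ℕ → Prop) (L : ℝ) (X h s u w : ℕ) (hh : 1 ≤ h) (hu : 1 ≤ u) (huw : u ≤ w)
    (hw : s + w * h ≤ 3 * X) :
    ∑ y ∈ Ico (u : ℤ) (w : ℤ), fq Q L X h s y = L / h * (cq Q (s + u * h) ((w - u) * h) : ℝ) := by
  classical
  induction w, huw using Nat.le_induction with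
  | base =>
    have h1 : cq Q (s + u * h) 0 = 0 := by
      unfold cq
      rw [add_zero, Ioc_self, filter_empty, card_empty]
    rw [Ico_self, sum_empty, Nat.sub_self, zero_mul, h1]
    simp
  | succ w huw ih =>
    have h1 : Ico (u : ℤ) ((w + 1 : ℕ) : ℤ) = insert (w : ℤ) (Ico (u : ℤ) (w : ℤ)) := by
      ext x
      rw [mem_insert, mem_Ico, mem_Ico]
      push_cast
      omega
    have h2 : s + w * h ≤ 3 * X := by nlinarith
    rw [h1, sum_insert (by simp), ih h2]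
    have h3 : fq Q L X h s (w : ℤ) = L / h * (cq Q (s + w * h) h : ℝ) := by
      unfold fq
      rw [Int.toNat_natCast, if_pos ⟨by omega, hw⟩]
    have h4 : (w + 1 - u) * h = (w - u) * h + h := by
      rw [show w + 1 - u = (w - u) + 1 by omega]
      ring
    have h5 : s + u * h + (w - u) * h = s + w * h := by
      rw [add_assoc, ← add_mul, show u + (w - u) = w by omega]
    rw [h3, h4, cq_add, h5]
    push_cast
    ring

end Pool.Agent.H49.RW
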