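import Pool.Agent.H49.RW.Dn

/-!
# [H49 RW IDQ] Elements of `Q` with bad index

PROOF: copy `pr_bad` of `Pool/Agent/H67/RG/Idx.lean` (with `Real.log X` replaced by `L > 0`, `Nat.Prime` by `Q`, `fb X h s` by `fq Q L X h s`).
-/

set_option autoImplicit false

namespace Pool.Agent.H49.RW

open Finset Pool.Agent.H5.Short Pool.Agent.H67.RG

open Classical in
theorem q_bad (Q : ℕ → Prop) {L : ℝ} (hL : 0 < L) (X h s : ℕ) (hh : 1 ≤ h) (hs : s < h) (hX : 2 * h ≤ X)
    (Bad : Finset ℤ) :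
    (((Ioc X (2 * X)).filter (fun p => Q p ∧ idx h s p ∈ Bad)).card : ℝ) ≤
      (h : ℝ) / L * ∑ i ∈ Bad, fq Q L X h s i := by
  have hhR : (0 : ℝ) < h := by exact_mod_cast hh
  have hfib : ((Ioc X (2 * X)).filter (fun p => Q p ∧ idx h s p ∈ Bad)).card =
      ∑ i ∈ Bad, (((Ioc X (2 * X)).filter (fun p => Q p ∧ idx h s p ∈ Bad)).filter (fun p => idx h s p = i)).card :=
    card_eq_sum_card_fiberwise (fun p hp => (mem_filter.1 hp).2.2)
  rw [hfib, mul_sum]
  push_cast
  refine sum_le_sum fun i _ => ?_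
  rcases (((Ioc X (2 * X)).filter (fun p => Q p ∧ idx h s p ∈ Bad)).filter (fun p => idx h s p = i)).eq_empty_or_nonempty with he | ⟨p0, hp0⟩
  · rw [he, card_empty, Nat.cast_zero]
    have h1 : 0 ≤ fq Q L X h s i := by
      unfold fq
      split_ifs
      · positivity
      · exact le_rfl
    positivity
  · have hp1 := mem_filter.1 hp0
    have hp2 := mem_Ioc.1 (mem_filter.1 hp1.1).1
    obtain ⟨h1, h2⟩ := idx_one X h s p0 hh hs hX hp2.1 hp2.2
    rw [hp1.2] at h1 h2
    have h3 : (h : ℝ) / L * fq Q L X h s i = (cq Q (s + i.toNat * h) h : ℝ) := by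
      unfold fq
      rw [if_pos ⟨h1, h2⟩]
      field_simp
    rw [h3]
    unfold cq
    norm_cast
    apply card_le_card
    intro p hp
    have hp3 := mem_filter.1 hp
    have hp4 := mem_filter.1 hp3.1
    have hp5 := mem_Ioc.1 hp4.1
    obtain ⟨-, h4, h5⟩ := idx_spec h s p hh (by omega)
    rw [hp3.2] at h4 h5
    rw [add_mul, one_mul] at h5
    rw [mem_filter, mem_Ioc]
    exact ⟨⟨h4, by omega⟩, hp4.2.1⟩

end Pool.Agent.H49.RW
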