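import Pool.Agent.H49.RW.Blk
import Pool.Agent.H49.RW.Idq

/-!
# [H49 RW CNT] The number of integers with good index, from the mass

PROOF. `T = (Ioc X (2X)).filter Q`, `N = |T|`, `G` = the elements of `T` with `idx h s p ∉ Bad`. By `q_bad`: `|{p ∈ T : idx ∈ Bad}| ≤ (h/L) β X/h = β X/L`, so `|G| ≥ (ρ - β) X/L ≥ 0`.
`I` = image of `G` under `idx h s` (a finset of integers, disjoint from `Bad`). `|G| ≤ ∑_{i ∈ I} #(elements of T with index i) ≤ ∑_{i ∈ I} (h/L) fq i` (`q_bad` with `Bad := I`), so by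
Cauchy-Schwarz `((ρ - β) X/L)² ≤ |G|² ≤ (h/L)² |I| ∑_{I} fq² ≤ (h/L)² |I| E X/h`, that is `|I| ≥ (ρ - β)² X/(E h)`.
Let `J = I` without its smallest and its largest element, or without the at most two indices whose block is not inside `(X, 2X]`: for every other `i ∈ I` the block
`(s + i h, s + (i+1) h]` contains an element of `(X, 2X]` and (because only the two blocks containing `X` resp. `2X` as interior points can fail) lies in `(X, 2X]`; all its `h` integers have index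
`i` (`idx_block`). So the number of `n ∈ (X, 2X]` with `idx ∉ Bad` is `≥ h (|I| - 2) ≥ (ρ - β)² X/E - 2 h ≥ ((ρ - β)²/E - δ) X`.
(See `pe_card`, `cnt` in `Pool/Agent/H67/RG/PairE.lean` for the same argument.)
-/

set_option autoImplicit false

namespace Pool.Agent.H49.RW

open Finset Pool.Agent.H5.Short Pool.Agent.H67.RG

open Classical in
theorem cntq (Q : ℕ → Prop) {L : ℝ} (hL : 0 < L) (X h s : ℕ) (hh : 1 ≤ h) (hs : s < h) (hX : 2 * h ≤ X)
    (Bad : Finset ℤ) (β δ E ρ : ℝ) (hE : 0 < E) (hδ : 0 < δ) (hhδ : 2 * (h : ℝ) ≤ δ * X) (hρ : β ≤ ρ)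
    (h1 : ρ * ((X : ℝ) / L) ≤ (((Ioc X (2 * X)).filter Q).card : ℝ))
    (h2 : ∑ i ∈ Bad, fq Q L X h s i ≤ β * ((X : ℝ) / h))
    (h3 : ∀ R : Finset ℤ, ∑ i ∈ R, (fq Q L X h s i) ^ 2 ≤ E * ((X : ℝ) / h)) :
    ((ρ - β) ^ 2 / E - δ) * X ≤ (((Ioc X (2 * X)).filter (fun n => idx h s n ∉ Bad)).card : ℝ) := by
  sorry

end Pool.Agent.H49.RW
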