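import Pool.Agent.H67.RG.Idx

/-!
# [H49 RW] Theorem R in every short interval (MP_31d0eb_nt): definitions

The number theoretic modules of `H67/RG` for an arbitrary set `Q` of natural numbers with density about `1/L` in the window
`(0, 3 X]` (second moment hypothesis `Enr`); the target is `(X, 2 X]`. Applied with `Q m = (B + m is prime)`, `B = X' - Y`, `X = Y`,
`L = log X'`: the integers `m` of `(Y, 2 Y]` correspond to `n = B + m` in `(X', X' + Y]`.

Modules: `Blk` (block function), `Idq`, `Conv`, `Rgn` (regular), `Low` (rich), `Cnt` (number of rich elements), `Up` (factor `4 + η`),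
`Enp` (energy of the primes in a window), `Trn` (translation), `Fin`.
-/

set_option autoImplicit false

namespace Pool.Agent.H49.RW

open Finset Pool.Agent.H5.Short Pool.Agent.H67.RG

open Classical in
/-- number of elements of `Q` in `(n, n + h]` -/
noncomputable def cq (Q : ℕ → Prop) (n h : ℕ) : ℕ := ((Ioc n (n + h)).filter Q).card

open Classical in
/-- number of elements of `Q` in `(a, b]` -/
noncomputable def qr (Q : ℕ → Prop) (a b : ℝ) : ℝ := (((Ioc ⌊a⌋₊ ⌊b⌋₊).filter Q).card : ℝ)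

/-- `(a, b]` is near `n` for the window length `Y`, the logarithm is `L` -/
def NearL (M K L Y : ℝ) (n : ℕ) (a b : ℝ) : Prop :=
  K * L ≤ b - a ∧ b - a ≤ Y / K ∧ |a - n| ≤ M * (b - a)

/-- upper bound of the right order -/
def QA (Q : ℕ → Prop) (M K L Y : ℝ) (n : ℕ) : Prop :=
  ∀ a b : ℝ, NearL M K L Y n a b → qr Q a b ≤ K * ((b - a) / L)

/-- common density between the cuts `t ∈ T` -/
def QC (Q : ℕ → Prop) (M K η L Y : ℝ) (n : ℕ) : Prop :=
  ∃ T : Finset ℝ, (T.card : ℝ) ≤ K ∧ ∀ a b a' b' : ℝ, NearL M K L Y n a b → NearL M K L Y n a' b' →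
    b - a ≤ b' - a' → (∀ t ∈ T, ¬ ((b - a) / 2 ≤ t ∧ t ≤ 2 * (b' - a'))) →
    |qr Q a b / (b - a) - qr Q a' b' / (b' - a')| ≤ η / L

/-- lower bounds to the right and to the left at all scales between `H0` and `H1` -/
def QR (Q : ℕ → Prop) (H0 H1 L c c' : ℝ) (n : ℕ) : Prop :=
  ∀ H : ℝ, H0 ≤ H → H ≤ H1 → c * (H / L) ≤ qr Q n (n + H) ∧ c' * (H / L) ≤ qr Q (n - H) n

/-- the density of `Q` in the block `(s + i h, s + (i+1) h]` -/
noncomputable def fq (Q : ℕ → Prop) (L : ℝ) (X h s : ℕ) (i : ℤ) : ℝ :=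
  if 1 ≤ i ∧ s + (i.toNat + 1) * h ≤ 3 * X then L / h * (cq Q (s + i.toNat * h) h : ℝ) else 0

/-- second moment of `Q` in all intervals of length `h ≥ L` of the window `(0, 3 X]` -/
def Enr (Q : ℕ → Prop) (L : ℝ) (X : ℕ) (C : ℝ) : Prop :=
  ∀ h : ℕ, L ≤ h → h ≤ 3 * X → ∑ n ∈ Ioc 0 (3 * X), (cq Q n h : ℝ) ^ 2 ≤ C * ((h : ℝ) ^ 2 * X / L ^ 2)

/-! ### The final notions, for primes -/

/-- `(a, b]` is near `n` for the window length `Y` -/
def NearY (M K Y : ℝ) (n : ℕ) (a b : ℝ) : Prop :=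
  K * Real.log n ≤ b - a ∧ b - a ≤ Y / K ∧ |a - n| ≤ M * (b - a)

/-- regular: (a) first part -/
def YA (M K Y : ℝ) (n : ℕ) : Prop :=
  ∀ a b : ℝ, NearY M K Y n a b → pr a b ≤ K * ((b - a) / Real.log n)

/-- regular: (a) second part -/
def YB (M K η Y : ℝ) (n : ℕ) : Prop :=
  ∀ a b : ℝ, NearY M K Y n a b → (Real.log n) ^ K ≤ b - a →
    pr a b ≤ (4 + η) * ((b - a) / Real.log (Y * (b - a)))

/-- regular: (b) -/
def YC (M K η Y : ℝ) (n : ℕ) : Prop :=
  ∃ T : Finset ℝ, (T.card : ℝ) ≤ K ∧ ∀ a b a' b' : ℝ, NearY M K Y n a b → NearY M K Y n a' b' →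
    b - a ≤ b' - a' → (∀ t ∈ T, ¬ ((b - a) / 2 ≤ t ∧ t ≤ 2 * (b' - a'))) →
    |pr a b / (b - a) - pr a' b' / (b' - a')| ≤ η / Real.log n

/-- rich -/
def YR (K c c' Y : ℝ) (n : ℕ) : Prop :=
  ∀ H : ℝ, K * Real.log n ≤ H → H ≤ Y / K →
    c * (H / Real.log n) ≤ pr n (n + H) ∧ c' * (H / Real.log n) ≤ pr (n - H) n

end Pool.Agent.H49.RW
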