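import Pool.Agent.H49.RW.Dn
import Pool.Agent.H24.LJ.Second

/-!
# [H49 RW ENP] The energy of the primes in every window

PROOF. `C1` from `Pool.Agent.H24.LJ.second_loc`, `C = 3 C1 (1/ε + 1/ε²)`. Let `L = log X`, `h` with `L ≤ h ≤ 3 Y`. `cq (fun m => (B + m).Prime) n h = pc (B + n) h` (bijection `m ↦ B + m` of
`(n, n+h]` and `(B+n, B+n+h]`), and `n ↦ B + n` maps `Ioc 0 (3 Y)` to `Ioc B (B + 3 Y)`. `second_loc` with `M = B`, `X := 3 Y`, `m := h` (`1 ≤ h` because `0 < L ≤ h`):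
`∑ ≤ C1 (h 3Y/log (3Y) + h² 3Y/(log 3Y)²)`, `log (3Y) ≥ log Y ≥ ε log X = ε L` (`X^ε ≤ Y`), and `h/L ≤ h²/L²`.
-/

set_option autoImplicit false

namespace Pool.Agent.H49.RW

open Finset Pool.Agent.H5.Short Pool.Agent.H67.RG

private theorem cq_eq (B n h : ℕ) : cq (fun m => (B + m).Prime) n h = pc (B + n) h := by
  have e : cq (fun m => (B + m).Prime) n h = ((Ioc n (n + h)).filter (fun m => (B + m).Prime)).card := by
    unfold cq
    congr
  rw [e]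
  unfold pc
  refine card_bij (fun m _ => B + m) ?_ ?_ ?_
  · intro m hm
    rw [mem_filter, mem_Ioc] at hm ⊢
    exact ⟨⟨by omega, by omega⟩, hm.2⟩
  · intro a _ b _ h
    omega
  · intro p hp
    rw [mem_filter, mem_Ioc] at hp
    refine ⟨p - B, ?_, by omega⟩
    rw [mem_filter, mem_Ioc]
    have e : B + (p - B) = p := by omega
    refine ⟨⟨by omega, by omega⟩, ?_⟩
    show (B + (p - B)).Prime
    rw [e]
    exact hp.2

theorem enp (ε : ℝ) (hε : 0 < ε) : ∃ C : ℝ, 0 < C ∧ ∀ X Y B : ℕ, 3 ≤ X → 2 ≤ Y → (X : ℝ) ^ ε ≤ Y →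
    Enr (fun m => (B + m).Prime) (Real.log X) Y C := by
  obtain ⟨C1, hC1, hs⟩ := Pool.Agent.H24.LJ.second_loc
  refine ⟨3 * C1 * (1 / ε + 1 / ε ^ 2), by positivity, fun X Y B hX hY hXY h hl h3 => ?_⟩
  have hXR : (3 : ℝ) ≤ X := by exact_mod_cast hX
  have hYR : (2 : ℝ) ≤ Y := by exact_mod_cast hY
  have hL : 0 < Real.log X := Real.log_pos (by linarith)
  have hh0 : (0 : ℝ) < h := lt_of_lt_of_le hL hl
  have hh1 : 1 ≤ h := by exact_mod_cast (by exact_mod_cast hh0 : 0 < h)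
  have h1 : ∑ n ∈ Ioc 0 (3 * Y), (cq (fun m => (B + m).Prime) n h : ℝ) ^ 2 =
      ∑ n ∈ Ioc B (B + 3 * Y), (pc n h : ℝ) ^ 2 := by
    refine sum_bij (fun n _ => B + n) ?_ ?_ ?_ ?_
    · intro n hn
      rw [mem_Ioc] at hn ⊢
      omega
    · intro a _ b _ h
      omega
    · intro n hn
      rw [mem_Ioc] at hn
      exact ⟨n - B, by rw [mem_Ioc]; omega, by omega⟩
    · intro n _
      rw [cq_eq]
  rw [h1]
  refine (hs B (3 * Y) h (by omega) hh1 h3).trans ?_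
  have hlog : ε * Real.log X ≤ Real.log ((3 * Y : ℕ) : ℝ) := by
    have e1 : Real.log ((X : ℝ) ^ ε) = ε * Real.log X := Real.log_rpow (by linarith) ε
    rw [← e1]
    apply Real.log_le_log (by positivity)
    push_cast
    linarith
  have hεL : 0 < ε * Real.log X := by positivity
  obtain ⟨l, hl3⟩ : ∃ l : ℝ, l = Real.log ((3 * Y : ℕ) : ℝ) := ⟨_, rfl⟩
  rw [← hl3] at hlog ⊢
  have hl0 : 0 < l := by linarith
  obtain ⟨L, hLd⟩ : ∃ L : ℝ, L = Real.log X := ⟨_, rfl⟩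
  rw [← hLd] at hlog hεL hL hl ⊢
  have hYc : ((3 * Y : ℕ) : ℝ) = 3 * Y := by push_cast; ring
  rw [hYc]
  have a1 : (h : ℝ) * (3 * Y) / l ≤ 3 * (1 / ε) * ((h : ℝ) ^ 2 * Y / L ^ 2) := by
    calc (h : ℝ) * (3 * Y) / l ≤ (h : ℝ) * (3 * Y) / (ε * L) :=
          div_le_div_of_nonneg_left (by positivity) hεL hlog
      _ = 3 * (1 / ε) * ((L * (h : ℝ)) * Y / L ^ 2) := by
          have e1 : L ≠ 0 := hL.ne'
          have e2 : ε ≠ 0 := hε.ne'
          field_simp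
      _ ≤ 3 * (1 / ε) * ((h * (h : ℝ)) * Y / L ^ 2) := by
          apply mul_le_mul_of_nonneg_left _ (by positivity)
          apply div_le_div_of_nonneg_right _ (by positivity)
          apply mul_le_mul_of_nonneg_right _ (by positivity)
          exact mul_le_mul_of_nonneg_right hl hh0.le
      _ = 3 * (1 / ε) * ((h : ℝ) ^ 2 * Y / L ^ 2) := by ring
  have a2 : (h : ℝ) ^ 2 * (3 * Y) / l ^ 2 ≤ 3 * (1 / ε ^ 2) * ((h : ℝ) ^ 2 * Y / L ^ 2) := by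
    calc (h : ℝ) ^ 2 * (3 * Y) / l ^ 2 ≤ (h : ℝ) ^ 2 * (3 * Y) / (ε * L) ^ 2 := by
          apply div_le_div_of_nonneg_left (by positivity) (by positivity)
          exact pow_le_pow_left₀ hεL.le hlog 2
      _ = 3 * (1 / ε ^ 2) * ((h : ℝ) ^ 2 * Y / L ^ 2) := by
          rw [mul_pow]
          field_simp
  calc C1 * ((h : ℝ) * (3 * Y) / l + (h : ℝ) ^ 2 * (3 * Y) / l ^ 2) ≤
      C1 * (3 * (1 / ε) * ((h : ℝ) ^ 2 * Y / L ^ 2) + 3 * (1 / ε ^ 2) * ((h : ℝ) ^ 2 * Y / L ^ 2)) := by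
        apply mul_le_mul_of_nonneg_left _ hC1.le
        linarith
    _ = 3 * C1 * (1 / ε + 1 / ε ^ 2) * ((h : ℝ) ^ 2 * Y / L ^ 2) := by ring

end Pool.Agent.H49.RW
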