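import Pool.Agent.H49.RW.Blk
import Pool.Agent.H67.RG.RS

/-!
# [H49 RW LOW] Lower bounds on both sides for all `n` outside blocks carrying few elements of `Q`

PROOF: copy `Pool/Agent/H67/RG/LowB.lean` with `fb X h s` replaced by `fq Q L X h s`, `Real.log X` AND `Real.log n` by `L`, `pc` by `cq Q`, `pr` by `qr Q`, `fb_sum` by `fq_sum`, and
WITHOUT the case of long intervals (`long`, PNT): here `H ≤ X/K` with `K ≥ 1/ε`, so always `H ≤ ε X`. `c, c' ≥ 0` are arbitrary here: in `lb_num` the needed inequality is `2 c ≤ (δ/16) m`, so take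
`m0 ≥ 192 (4C)/δ² + 32 (c + c' + 1)/δ` and `hm0 : 32 (c + c' + 1) ≤ δ m0`. `ε = min (1/2) (δ/(16 (c + c' + 1) + δ))`,
`Y0 = 4 + m0 + 3 (16 (c + c' + 1) + δ)/δ`, final inequality: `(c + c')(3 + ε Y) + (δ/8)(3 + ε Y) + (3/8) δ Y ≤ δ Y` with `Y = X/h ≥ Y0`.
`K = m0 + 3 + Y0 + 1/ε` (so `Y0 h ≤ X` follows from `K h ≤ X`). `E ≤ 4 C Y` from `fq_energy` (`L ≤ h`, `2 h ≤ 3 X`).
-/

set_option autoImplicit false

namespace Pool.Agent.H49.RW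

open Finset Pool.Agent.H5.Short Pool.Agent.H67.RG

theorem low (c c' δ C : ℝ) (hc : 0 ≤ c) (hc' : 0 ≤ c') (hδ : 0 < δ) (hC : 0 < C) : ∃ K : ℝ, 1 ≤ K ∧
    ∀ (Q : ℕ → Prop) (L : ℝ) (X : ℕ), 1 ≤ L → Enr Q L X C →
    ∀ h s : ℕ, L ≤ h → K * h ≤ X → s < h →
    ∃ Bad : Finset ℤ, ∑ i ∈ Bad, fq Q L X h s i ≤ (c + c' + δ) * ((X : ℝ) / h) ∧
      ∀ n : ℕ, X < n → n ≤ 2 * X → idx h s n ∉ Bad → QR Q (K * h) (X / K) L c c' n := by
  sorry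

end Pool.Agent.H49.RW
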