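import Pool.Agent.H49.RW.Dn

/-!
# [H49 RW MON] Monotonicity in the constant `K`

PROOFS: see `Pool/Agent/H67/RG/Mono.lean`. `NearY M K' Y n a b → NearY M K Y n a b` for `0 < K ≤ K'`, `log n ≥ 0`, `Y ≥ 0`; `b - a ≥ 0` as `K log n ≤ b - a`.
-/

set_option autoImplicit false

namespace Pool.Agent.H49.RW

open Finset Pool.Agent.H5.Short Pool.Agent.H67.RG

private theorem nearY_mono {M K K' Y : ℝ} {n : ℕ} {a b : ℝ} (hY : 0 ≤ Y) (hK : 0 < K) (hKK : K ≤ K')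
    (hn : 1 ≤ Real.log n) (h : NearY M K' Y n a b) : NearY M K Y n a b := by
  obtain ⟨h1, h2, h3⟩ := h
  exact ⟨(mul_le_mul_of_nonneg_right hKK (by linarith)).trans h1,
    h2.trans (div_le_div_of_nonneg_left hY hK hKK), h3⟩

theorem YA_mono {M K K' Y : ℝ} {n : ℕ} (hY : 0 ≤ Y) (hK : 0 < K) (hKK : K ≤ K') (hn : 1 ≤ Real.log n)
    (h : YA M K Y n) : YA M K' Y n := by
  intro a b hab
  refine (h a b (nearY_mono hY hK hKK hn hab)).trans ?_
  have hK' : 0 < K' := lt_of_lt_of_le hK hKK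
  have h1 : 0 ≤ b - a := (mul_nonneg hK'.le (by linarith)).trans hab.1
  exact mul_le_mul_of_nonneg_right hKK (div_nonneg h1 (by linarith))

theorem YB_mono {M K K' η Y : ℝ} {n : ℕ} (hY : 0 ≤ Y) (hK : 0 < K) (hKK : K ≤ K') (hn : 1 ≤ Real.log n)
    (h : YB M K η Y n) : YB M K' η Y n := by
  intro a b hab hb
  exact h a b (nearY_mono hY hK hKK hn hab) ((Real.rpow_le_rpow_of_exponent_le hn hKK).trans hb)

theorem YC_mono {M K K' η Y : ℝ} {n : ℕ} (hY : 0 ≤ Y) (hK : 0 < K) (hKK : K ≤ K') (hn : 1 ≤ Real.log n)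
    (h : YC M K η Y n) : YC M K' η Y n := by
  obtain ⟨T, hT, h⟩ := h
  refine ⟨T, hT.trans hKK, ?_⟩
  intro a b a' b' h1 h2 h3 h4
  exact h a b a' b' (nearY_mono hY hK hKK hn h1) (nearY_mono hY hK hKK hn h2) h3 h4

theorem YR_mono {K K' c c' Y : ℝ} {n : ℕ} (hY : 0 ≤ Y) (hK : 0 < K) (hKK : K ≤ K') (hn : 1 ≤ Real.log n)
    (h : YR K c c' Y n) : YR K' c c' Y n := by
  intro H h1 h2
  exact h H ((mul_le_mul_of_nonneg_right hKK (by linarith)).trans h1)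
    (h2.trans (div_le_div_of_nonneg_left hY hK hKK))

end Pool.Agent.H49.RW
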