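import Pool.Agent.H49.RW.Dn

/-!
# [H49 RW TRN] Translation: primes near `n = X - Y + m` and `Q m = (X - Y + m is prime)`

PROOF. `B = X - Y`, `n = B + m`, `Y < m ≤ 2 Y`, so `X < n ≤ X + Y ≤ 2 X`, `log X ≤ log n ≤ 2 log X` (`n ≤ 2 X ≤ X²`). For real `a, b` with `B ≤ a ≤ b`:
`pr a b = qr Q (a - B) (b - B)`: `⌊a⌋₊ = B + ⌊a - B⌋₊` (`Nat.floor_add_natCast` for `a - B ≥ 0`), same for `b`, and the shift by `B` is a bijection (`qr_shift`).
If `(a, b]` is near `n` (`NearY M K Y n a b`, `K ≥ 2 M + 2`, `M ≥ 1`): `|a - n| ≤ M (b - a) ≤ M Y/K ≤ Y/2`, so `a ≥ n - Y/2 > X - Y ≥ B`, and `(a - B, b - B]` is near `m`: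
`NearL M K' L Y m` with `L = log X` for every `0 < K' ≤ K` (`K log n ≥ K' log X`, `Y/K ≤ Y/K'`, `(a - B) - m = a - n`).
`tr_A`: `pr a b = qr ≤ K' (b-a)/L ≤ 2 K' (b-a)/log n ≤ K (b-a)/log n` as `log n ≤ 2 L`, `2 K' ≤ K` (`b - a ≥ 0`). `tr_C`: the same `T`, `|T| ≤ K' ≤ K`, `η'/L ≤ 2 η'/log n = η/log n`, `η' = η/2`.
`tr_R`: `H ≥ K log n ≥ H0`, `H ≤ Y/K ≤ H1`; `pr n (n+H) = qr m (m + H)`, `pr (n - H) n = qr (m - H) m` (`n - H ≥ B` as `H ≤ Y/K ≤ Y`, `n > B + Y`), `c H/log n ≤ c H/L`.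
-/

set_option autoImplicit false

namespace Pool.Agent.H49.RW

open Finset Pool.Agent.H5.Short Pool.Agent.H67.RG

theorem qr_shift (B : ℕ) (a b : ℝ) (ha : (B : ℝ) ≤ a) (hab : a ≤ b) :
    pr a b = qr (fun m => (B + m).Prime) (a - B) (b - B) := by
  classical
  have hb : (B : ℝ) ≤ b := ha.trans hab
  have ea : ⌊a⌋₊ = B + ⌊a - B⌋₊ := by
    have h1 := Nat.floor_add_natCast (show (0 : ℝ) ≤ a - B by linarith) B
    rw [sub_add_cancel] at h1
    omega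
  have eb : ⌊b⌋₊ = B + ⌊b - B⌋₊ := by
    have h1 := Nat.floor_add_natCast (show (0 : ℝ) ≤ b - B by linarith) B
    rw [sub_add_cancel] at h1
    omega
  have e : qr (fun m => (B + m).Prime) (a - B) (b - B) =
      ((((Ioc ⌊a - B⌋₊ ⌊b - B⌋₊).filter (fun m => (B + m).Prime)).card : ℕ) : ℝ) := by
    unfold qr
    congr
  rw [e]
  unfold pr
  rw [ea, eb]
  norm_cast
  symm
  refine card_bij (fun m _ => B + m) ?_ ?_ ?_
  · intro m hm
    rw [mem_filter, mem_Ioc] at hm ⊢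
    exact ⟨⟨by omega, by omega⟩, hm.2⟩
  · intro a _ b _ h
    omega
  · intro p hp
    rw [mem_filter, mem_Ioc] at hp
    refine ⟨p - B, ?_, by omega⟩
    rw [mem_filter, mem_Ioc]
    have e : B + (p - B) = p := by omega
    refine ⟨⟨by omega, by omega⟩, ?_⟩
    show (B + (p - B)).Prime
    rw [e]
    exact hp.2

/-- the logarithms -/
private theorem tr_log {X Y m : ℕ} (hX : 3 ≤ X) (hY : Y ≤ X) (hm : Y < m) (hm2 : m ≤ 2 * Y) :
    1 ≤ Real.log X ∧ Real.log X ≤ Real.log ((X - Y + m : ℕ) : ℝ) ∧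
      Real.log ((X - Y + m : ℕ) : ℝ) ≤ 2 * Real.log X := by
  have hXR : (3 : ℝ) ≤ X := by exact_mod_cast hX
  have h1 : X < X - Y + m := by omega
  have h2 : X - Y + m ≤ 2 * X := by omega
  have h1R : (X : ℝ) < ((X - Y + m : ℕ) : ℝ) := by exact_mod_cast h1
  have h2R : ((X - Y + m : ℕ) : ℝ) ≤ 2 * X := by exact_mod_cast h2
  refine ⟨?_, Real.log_le_log (by linarith) h1R.le, ?_⟩
  · rw [Real.le_log_iff_exp_le (by linarith)]
    have := Real.exp_one_lt_d9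
    linarith
  · have e1 : ((X - Y + m : ℕ) : ℝ) ≤ (X : ℝ) ^ 2 := by nlinarith
    refine (Real.log_le_log (by linarith) e1).trans (le_of_eq ?_)
    rw [Real.log_pow]
    norm_num

/-- a near interval, translated -/
private theorem tr_near {M K K' : ℝ} {X Y m : ℕ} (hM : 1 ≤ M) (hK' : 0 < K')
    (hK : 2 * K' + 2 * M + 2 ≤ K) (hX : 3 ≤ X) (hY : Y ≤ X) (hm : Y < m) (hm2 : m ≤ 2 * Y) {a b : ℝ}
    (h : NearY M K Y (X - Y + m) a b) :
    0 < b - a ∧ ((X - Y : ℕ) : ℝ) ≤ a ∧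
      NearL M K' (Real.log X) Y m (a - ((X - Y : ℕ) : ℝ)) (b - ((X - Y : ℕ) : ℝ)) := by
  obtain ⟨l1, l2, l3⟩ := tr_log hX hY hm hm2
  obtain ⟨h1, h2, h3⟩ := h
  have hK0 : 0 < K := by linarith
  have hKK : K' ≤ K := by linarith
  have hY0 : (0 : ℝ) ≤ Y := Nat.cast_nonneg _
  have hmR : (Y : ℝ) < m := by exact_mod_cast hm
  have hpos : 0 < b - a := by
    have : 0 < K * Real.log ((X - Y + m : ℕ) : ℝ) := mul_pos hK0 (by linarith)
    linarith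
  have e0 : ((X - Y + m : ℕ) : ℝ) = ((X - Y : ℕ) : ℝ) + m := by push_cast; ring
  have h4 : M * (b - a) ≤ Y := by
    have h5 : M * (b - a) ≤ M * (Y / K) := mul_le_mul_of_nonneg_left h2 (by linarith)
    have h6 : M * (Y / K) = M / K * Y := by ring
    have h7 : M / K ≤ 1 := by
      rw [div_le_one hK0]
      linarith
    have h8 : M / K * Y ≤ 1 * Y := mul_le_mul_of_nonneg_right h7 hY0
    linarith
  have h9 := (abs_le.1 h3).1
  refine ⟨hpos, ?_, ?_, ?_, ?_⟩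
  · rw [e0] at h9
    linarith
  · have e1 : b - ((X - Y : ℕ) : ℝ) - (a - ((X - Y : ℕ) : ℝ)) = b - a := by ring
    rw [e1]
    refine le_trans ?_ h1
    exact mul_le_mul hKK l2 (by linarith) hK0.le
  · have e1 : b - ((X - Y : ℕ) : ℝ) - (a - ((X - Y : ℕ) : ℝ)) = b - a := by ring
    rw [e1]
    exact h2.trans (div_le_div_of_nonneg_left hY0 hK' hKK)
  · have e1 : b - ((X - Y : ℕ) : ℝ) - (a - ((X - Y : ℕ) : ℝ)) = b - a := by ring
    have e2 : a - ((X - Y : ℕ) : ℝ) - m = a - ((X - Y + m : ℕ) : ℝ) := by rw [e0]; ring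
    rw [e1, e2]
    exact h3

theorem tr_A {M K K' : ℝ} {X Y m : ℕ} (hM : 1 ≤ M) (hK' : 0 < K') (hK : 2 * K' + 2 * M + 2 ≤ K)
    (hX : 3 ≤ X) (hY : Y ≤ X) (hm : Y < m) (hm2 : m ≤ 2 * Y)
    (h : QA (fun m => (X - Y + m).Prime) M K' (Real.log X) Y m) : YA M K Y (X - Y + m) := by
  intro a b hab
  obtain ⟨l1, l2, l3⟩ := tr_log hX hY hm hm2
  obtain ⟨n1, n2, n3⟩ := tr_near hM hK' hK hX hY hm hm2 hab
  have h1 := h _ _ n3
  have e1 : b - ((X - Y : ℕ) : ℝ) - (a - ((X - Y : ℕ) : ℝ)) = b - a := by ring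
  rw [e1, ← qr_shift (X - Y) a b n2 (by linarith)] at h1
  refine h1.trans ?_
  rw [← mul_div_assoc, ← mul_div_assoc, div_le_div_iff₀ (by linarith) (by linarith)]
  have h2 : K' * Real.log ((X - Y + m : ℕ) : ℝ) ≤ K * Real.log X := by
    calc K' * Real.log ((X - Y + m : ℕ) : ℝ) ≤ K' * (2 * Real.log X) := mul_le_mul_of_nonneg_left l3 hK'.le
      _ = 2 * K' * Real.log X := by ring
      _ ≤ K * Real.log X := mul_le_mul_of_nonneg_right (by linarith) (by linarith)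
  have h3 := mul_le_mul_of_nonneg_right h2 n1.le
  calc K' * (b - a) * Real.log ((X - Y + m : ℕ) : ℝ) = K' * Real.log ((X - Y + m : ℕ) : ℝ) * (b - a) := by ring
    _ ≤ K * Real.log X * (b - a) := h3
    _ = K * (b - a) * Real.log X := by ring

theorem tr_C {M K K' η : ℝ} {X Y m : ℕ} (hM : 1 ≤ M) (hη : 0 < η) (hK' : 0 < K')
    (hK : 2 * K' + 2 * M + 2 ≤ K) (hX : 3 ≤ X) (hY : Y ≤ X) (hm : Y < m) (hm2 : m ≤ 2 * Y)
    (h : QC (fun m => (X - Y + m).Prime) M K' (η / 2) (Real.log X) Y m) : YC M K η Y (X - Y + m) := by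
  obtain ⟨l1, l2, l3⟩ := tr_log hX hY hm hm2
  obtain ⟨T, hT, h⟩ := h
  refine ⟨T, hT.trans (by linarith), fun a b a' b' hab hab' hll hTT => ?_⟩
  obtain ⟨n1, n2, n3⟩ := tr_near hM hK' hK hX hY hm hm2 hab
  obtain ⟨n1', n2', n3'⟩ := tr_near hM hK' hK hX hY hm hm2 hab'
  have e1 : b - ((X - Y : ℕ) : ℝ) - (a - ((X - Y : ℕ) : ℝ)) = b - a := by ring
  have e2 : b' - ((X - Y : ℕ) : ℝ) - (a' - ((X - Y : ℕ) : ℝ)) = b' - a' := by ring
  have h1 := h _ _ _ _ n3 n3' (by rw [e1, e2]; exact hll) (by rw [e1, e2]; exact hTT)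
  rw [e1, e2, ← qr_shift (X - Y) a b n2 (by linarith),
    ← qr_shift (X - Y) a' b' n2' (by linarith)] at h1
  refine h1.trans ?_
  rw [div_le_div_iff₀ (by linarith) (by linarith)]
  calc η / 2 * Real.log ((X - Y + m : ℕ) : ℝ) ≤ η / 2 * (2 * Real.log X) :=
        mul_le_mul_of_nonneg_left l3 (by linarith)
    _ = η * Real.log X := by ring

theorem tr_R {K H0 H1 c c' : ℝ} {X Y m : ℕ} (hc : 0 ≤ c) (hc' : 0 ≤ c') (hK : 1 ≤ K)
    (hX : 3 ≤ X) (hY : Y ≤ X) (hm : Y < m) (hm2 : m ≤ 2 * Y)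
    (hH0 : H0 ≤ K * Real.log X) (hH1 : Y / K ≤ H1)
    (h : QR (fun m => (X - Y + m).Prime) H0 H1 (Real.log X) c c' m) : YR K c c' Y (X - Y + m) := by
  obtain ⟨l1, l2, l3⟩ := tr_log hX hY hm hm2
  intro H g1 g2
  have hY0 : (0 : ℝ) ≤ Y := Nat.cast_nonneg _
  have hmR : (Y : ℝ) < m := by exact_mod_cast hm
  have hH : 0 ≤ H := le_trans (by positivity) g1
  have hHY : H ≤ Y := g2.trans (div_le_self hY0 hK)
  have hH0' : H0 ≤ H := hH0.trans ((mul_le_mul_of_nonneg_left l2 (by linarith)).trans g1)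
  obtain ⟨r1, r2⟩ := h H hH0' (g2.trans hH1)
  have e0 : ((X - Y + m : ℕ) : ℝ) = ((X - Y : ℕ) : ℝ) + m := by push_cast; ring
  have hlog : H / Real.log ((X - Y + m : ℕ) : ℝ) ≤ H / Real.log X :=
    div_le_div_of_nonneg_left hH (by linarith) l2
  constructor
  · rw [qr_shift (X - Y) _ _ (by rw [e0]; linarith) (by linarith)]
    have e1 : ((X - Y + m : ℕ) : ℝ) - ((X - Y : ℕ) : ℝ) = m := by rw [e0]; ring
    have e2 : ((X - Y + m : ℕ) : ℝ) + H - ((X - Y : ℕ) : ℝ) = m + H := by rw [e0]; ring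
    rw [e1, e2]
    exact (mul_le_mul_of_nonneg_left hlog hc).trans r1
  · rw [qr_shift (X - Y) _ _ (by rw [e0]; linarith) (by linarith)]
    have e1 : ((X - Y + m : ℕ) : ℝ) - ((X - Y : ℕ) : ℝ) = m := by rw [e0]; ring
    have e2 : ((X - Y + m : ℕ) : ℝ) - H - ((X - Y : ℕ) : ℝ) = m - H := by rw [e0]; ring
    rw [e1, e2]
    exact (mul_le_mul_of_nonneg_left hlog hc').trans r2

end Pool.Agent.H49.RW
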