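import Pool.Agent.H49.RW.Dn
import Pool.Agent.H24.AB.Loc

/-!
# [H49 RW UP] The upper bound with `4 + η` near almost all `n` of every window

PROOF (see `Pool/Agent/H67/RG/UpN.lean` for the same argument in `(X, 2X]`). `δ = min η 1`, `τ = δ/40`. `(κ, C)` from `Pool.Agent.H24.AB.loc_bt (δ/4)`, applied with `M := X - Y`,
`X := 3 Y` and `W = (log X)^24` (`≤ (3 Y)^κ` for large `X`, as `Y ≥ X^ε`): `Ex` = the integers `x` with `X - Y < x ≤ X + 2 Y` such that for some real `H`, `W ≤ H ≤ 3 Y`,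
`π(x, x + H] > (4 + δ/4) H/log (3 Y H)`; `|Ex| ≤ C 3Y (log 3Y)^18/W ≤ C' Y/(log X)^6` (`log (3Y) ≤ 2 log X`). `K = max (25) (8 M + 16)` or larger.
CLAIM 1. Let `X < n ≤ X + Y` and let `(a, b]` be near `n` (`NearY M K Y n a b`), `ℓ = b - a ≥ (log n)^K`, and suppose `pr a b > (4+η) ℓ/log (Y ℓ)`. Then every integer `x ∈ [a - τ ℓ, a]`
is in `Ex`: `X - Y < x` as `|a - n| ≤ M Y/K ≤ Y/8`, `τ ℓ ≤ Y/40`; put `H = b - x ∈ [ℓ, (1+τ) ℓ]`; `H ≥ ℓ ≥ (log n)^K ≥ W`, `H ≤ 2 ℓ ≤ 3 Y`; if `x ∉ Ex` then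
`pr a b ≤ #primes in (x, x+H] ≤ (4 + δ/4) H/log (3 Y H) ≤ (4 + δ/4)(1+τ) ℓ/log (Y ℓ) ≤ (4+δ) ℓ/log (Y ℓ)`: contradiction. The number of these `x` is `≥ τ ℓ - 1 ≥ τ ℓ/2`, and
`|x - n| ≤ (M+1) ℓ`.
CLAIM 2. For natural `r ≥ 1` the number of `n ∈ (X, X+Y]` with `#(Ex ∩ [n - r, n + r]) ≥ ρ r`, `ρ > 0`, is `≤ (2r+1)|Ex|/(ρ r) ≤ 3 |Ex|/ρ` (double counting). Apply it with
`r = 2^j`, `2^j ≤ 4 Y` (at most `2 log X + 3` values), `r/2 < (M+1) ℓ + 1 ≤ r`, `ρ = τ/(4 (M+2))`: every `n` of claim 1 is counted for one `j` (`τ ℓ/2 ≥ ρ r`). So the number of the `n`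
violating `YB M K η Y` is at most `(2 log X + 3) · 3 |Ex|/ρ ≤ Y/(log X)^2` for large `X`.
-/

set_option autoImplicit false

namespace Pool.Agent.H49.RW

open Finset Pool.Agent.H5.Short Pool.Agent.H67.RG

/-- exceptional integers of `loc_bt` -/
private def UX (δ W : ℝ) (N n : ℕ) : Prop :=
  ∃ H : ℝ, W ≤ H ∧ H ≤ N ∧
    (4 + δ) * (H / Real.log (N * H)) < (((Ioc n ⌊(n : ℝ) + H⌋₊).filter Nat.Prime).card : ℝ)

/-- double counting -/
private theorem dcu (Ex S : Finset ℕ) (r : ℕ) (hr : 1 ≤ r) (ρ : ℝ) (hρ : 0 < ρ) :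
    ((S.filter (fun n => ρ * r ≤ ((Ex.filter (fun x => n ≤ x + r ∧ x ≤ n + r)).card : ℝ))).card : ℝ) ≤
      3 * Ex.card / ρ := by
  classical
  set B := S.filter (fun n => ρ * r ≤ ((Ex.filter (fun x => n ≤ x + r ∧ x ≤ n + r)).card : ℝ)) with hB
  have hr0 : (0 : ℝ) < r := by exact_mod_cast hr
  have h1 : (B.card : ℝ) * (ρ * r) ≤ ∑ n ∈ B, ((Ex.filter (fun x => n ≤ x + r ∧ x ≤ n + r)).card : ℝ) := by
    rw [← nsmul_eq_mul, ← sum_const]
    refine sum_le_sum fun n hn => ?_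
    rw [hB, mem_filter] at hn
    exact hn.2
  have h2 : ∑ n ∈ B, (Ex.filter (fun x => n ≤ x + r ∧ x ≤ n + r)).card =
      ∑ x ∈ Ex, (B.filter (fun n => n ≤ x + r ∧ x ≤ n + r)).card := by
    simp_rw [card_filter]
    rw [sum_comm]
  have h3 : ∀ x ∈ Ex, (B.filter (fun n => n ≤ x + r ∧ x ≤ n + r)).card ≤ 2 * r + 1 := by
    intro x _
    have : B.filter (fun n => n ≤ x + r ∧ x ≤ n + r) ⊆ Icc (x - r) (x + r) := by
      intro n hn
      rw [mem_filter] at hn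
      rw [mem_Icc]
      omega
    refine (card_le_card this).trans ?_
    rw [Nat.card_Icc]
    omega
  have h4 : (∑ n ∈ B, (Ex.filter (fun x => n ≤ x + r ∧ x ≤ n + r)).card : ℕ) ≤ Ex.card * (2 * r + 1) := by
    rw [h2]
    refine (sum_le_sum h3).trans ?_
    rw [sum_const, smul_eq_mul]
  have h5 : ∑ n ∈ B, ((Ex.filter (fun x => n ≤ x + r ∧ x ≤ n + r)).card : ℝ) ≤ Ex.card * (2 * r + 1) := by
    exact_mod_cast h4
  have hr1 : (1 : ℝ) ≤ r := by exact_mod_cast hr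
  rw [le_div_iff₀ hρ]
  have h6 : (B.card : ℝ) * ρ * r ≤ 3 * Ex.card * r := by
    have h7 : (Ex.card : ℝ) * (2 * r + 1) ≤ Ex.card * (3 * r) :=
      mul_le_mul_of_nonneg_left (by linarith) (Nat.cast_nonneg _)
    nlinarith
  exact le_of_mul_le_mul_right h6 hr0

/-- one violating interval produces many exceptional points -/
private theorem coreu (M δ τ K : ℝ) (hM : 1 ≤ M) (hδ : 0 < δ) (hδ1 : δ ≤ 1) (hτ : τ = δ / 40)
    (hKA : 24 ≤ K) (hKM : 8 * M + 16 ≤ K) (X Y n : ℕ) (hXn : X < n) (hnX : n ≤ X + Y) (hYX : Y ≤ X)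
    (hY2 : 2 ≤ Y) (hL1 : 1 ≤ Real.log X)
    (a b : ℝ) (hnear : NearY M K Y n a b) (hb : (Real.log n) ^ K ≤ b - a)
    (hpr : (4 + δ) * ((b - a) / Real.log (Y * (b - a))) < pr a b) (x : ℕ) (hx1 : a - τ * (b - a) ≤ x)
    (hx2 : (x : ℝ) ≤ a) : X - Y < x ∧ x ≤ X - Y + 3 * Y ∧ UX (δ / 4) ((Real.log X) ^ 24) (3 * Y) x := by
  obtain ⟨ℓ, hℓ⟩ : ∃ ℓ : ℝ, ℓ = b - a := ⟨_, rfl⟩
  obtain ⟨hn1, hn2, hn3⟩ := hnear
  rw [← hℓ] at hn1 hn2 hn3 hb hpr hx1
  have hYR : (2 : ℝ) ≤ Y := by exact_mod_cast hY2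
  have hYXR : (Y : ℝ) ≤ X := by exact_mod_cast hYX
  have hX0 : (0 : ℝ) < X := by linarith
  have hY0 : (0 : ℝ) < Y := by linarith
  have hXnR : (X : ℝ) < n := by exact_mod_cast hXn
  have hnXR : (n : ℝ) ≤ X + Y := by exact_mod_cast hnX
  have hn0 : (0 : ℝ) < n := by linarith
  have hlog : Real.log X ≤ Real.log n := Real.log_le_log hX0 hXnR.le
  have hlogn : 1 ≤ Real.log n := by linarith
  have hK0 : 0 < K := by linarith
  have hτ0 : 0 < τ := by rw [hτ]; positivity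
  have hτ1 : τ ≤ 1 / 40 := by rw [hτ]; linarith
  have hℓ1 : 1 ≤ ℓ := by
    refine le_trans ?_ hb
    exact Real.one_le_rpow (by linarith) hK0.le
  have hℓ0 : 0 < ℓ := by linarith
  have hℓK : ℓ * (8 * M + 16) ≤ Y := by
    rw [le_div_iff₀ hK0] at hn2
    exact (mul_le_mul_of_nonneg_left hKM hℓ0.le).trans hn2
  have hMℓ : ℓ ≤ M * ℓ := by nlinarith
  have hab := abs_le.1 hn3
  have hM8 : M * ℓ ≤ Y / 8 := by nlinarith
  have hτℓ : τ * ℓ ≤ Y / 40 := by nlinarith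
  have hxl : (X : ℝ) - Y < x := by linarith
  have hxu : (x : ℝ) ≤ X + 2 * Y := by linarith
  have hxpos : (0 : ℝ) < x := by linarith
  refine ⟨?_, ?_, ?_⟩
  · have : ((X - Y : ℕ) : ℝ) < x := by
      rw [Nat.cast_sub hYX]
      linarith
    exact_mod_cast this
  · have : (x : ℝ) ≤ ((X - Y + 3 * Y : ℕ) : ℝ) := by
      rw [Nat.cast_add, Nat.cast_sub hYX]
      push_cast
      linarith
    exact_mod_cast this
  · by_contra hUB
    obtain ⟨H, hH⟩ : ∃ H : ℝ, H = b - x := ⟨_, rfl⟩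
    have hHl : ℓ ≤ H := by rw [hH, hℓ]; linarith
    have hHu : H ≤ (1 + τ) * ℓ := by
      rw [hH]
      have : b = a + ℓ := by rw [hℓ]; ring
      rw [this]
      linarith
    have hH1 : (Real.log X) ^ 24 ≤ H := by
      calc (Real.log X) ^ 24 ≤ (Real.log n) ^ 24 := pow_le_pow_left₀ (by linarith) hlog 24
        _ = (Real.log n) ^ (24 : ℝ) := by
            rw [show (24 : ℝ) = ((24 : ℕ) : ℝ) by norm_num, Real.rpow_natCast]
        _ ≤ (Real.log n) ^ K := Real.rpow_le_rpow_of_exponent_le hlogn hKA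
        _ ≤ H := hb.trans hHl
    have hH2 : H ≤ ((3 * Y : ℕ) : ℝ) := by
      push_cast
      have : (1 + τ) * ℓ ≤ 2 * ℓ := mul_le_mul_of_nonneg_right (by linarith) hℓ0.le
      nlinarith
    have h3 : (((Ioc x ⌊(x : ℝ) + H⌋₊).filter Nat.Prime).card : ℝ) ≤
        (4 + δ / 4) * (H / Real.log (((3 * Y : ℕ) : ℝ) * H)) := by
      by_contra hc
      exact hUB ⟨H, hH1, hH2, not_le.1 hc⟩
    have h4 : pr a b ≤ (((Ioc x ⌊(x : ℝ) + H⌋₊).filter Nat.Prime).card : ℝ) := by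
      unfold pr
      have e5 : (x : ℝ) + H = b := by rw [hH]; ring
      rw [e5]
      have e6 : x ≤ ⌊a⌋₊ := Nat.le_floor hx2
      exact_mod_cast card_le_card (filter_subset_filter _ (Ioc_subset_Ioc_left e6))
    have hYl1 : 1 < (Y : ℝ) * ℓ := by nlinarith
    have hlogl : Real.log (Y * ℓ) ≤ Real.log (((3 * Y : ℕ) : ℝ) * H) := by
      apply Real.log_le_log (by positivity)
      push_cast
      exact mul_le_mul (by linarith) hHl hℓ0.le (by positivity)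
    have hlog0 : 0 < Real.log (Y * ℓ) := Real.log_pos hYl1
    have h5 : (4 + δ / 4) * (H / Real.log (((3 * Y : ℕ) : ℝ) * H)) ≤ (4 + δ) * (ℓ / Real.log (Y * ℓ)) := by
      calc (4 + δ / 4) * (H / Real.log (((3 * Y : ℕ) : ℝ) * H)) ≤
            (4 + δ / 4) * (((1 + τ) * ℓ) / Real.log (Y * ℓ)) := by
            apply mul_le_mul_of_nonneg_left _ (by linarith)
            exact div_le_div₀ (by positivity) hHu hlog0 hlogl
        _ = ((4 + δ / 4) * (1 + τ)) * (ℓ / Real.log (Y * ℓ)) := by ring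
        _ ≤ (4 + δ) * (ℓ / Real.log (Y * ℓ)) := by
            apply mul_le_mul_of_nonneg_right _ (by positivity)
            rw [hτ]
            nlinarith
    linarith

open Classical in
private theorem up1 (M ε δ : ℝ) (hM : 1 ≤ M) (hε : 0 < ε) (hδ : 0 < δ) (hδ1 : δ ≤ 1) : ∃ K : ℝ, 1 ≤ K ∧
    ∃ X0 : ℕ, ∀ X Y : ℕ, X0 ≤ X → (X : ℝ) ^ ε ≤ Y → Y ≤ X →
    (((Ioc X (X + Y)).filter (fun n => ¬ YB M K δ Y n)).card : ℝ) ≤ Y / (Real.log X) ^ 2 := by
  obtain ⟨κ, C, hκ, hC, hbt⟩ := Pool.Agent.H24.AB.loc_bt (δ / 4) (by positivity)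
  obtain ⟨τ, hτ⟩ : ∃ τ : ℝ, τ = δ / 40 := ⟨_, rfl⟩
  have hτ0 : 0 < τ := by rw [hτ]; positivity
  obtain ⟨K, hK⟩ : ∃ K : ℝ, K = max 24 (8 * M + 16) := ⟨_, rfl⟩
  have hKA : 24 ≤ K := by rw [hK]; exact le_max_left _ _
  have hKM : 8 * M + 16 ≤ K := by rw [hK]; exact le_max_right _ _
  obtain ⟨ρ, hρ⟩ : ∃ ρ : ℝ, ρ = τ / (4 * (M + 1)) := ⟨_, rfl⟩
  have hρ0 : 0 < ρ := by rw [hρ]; positivity
  have hlogtend : Filter.Tendsto (fun n : ℕ => Real.log (n : ℝ)) Filter.atTop Filter.atTop :=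
    Real.tendsto_log_atTop.comp tendsto_natCast_atTop_atTop
  have hεκ : 0 < ε * κ := by positivity
  have hlo : ∀ᶠ n : ℕ in Filter.atTop, (Real.log (n : ℝ)) ^ 24 ≤ (n : ℝ) ^ (ε * κ) := by
    have h1 := (isLittleO_log_rpow_rpow_atTop (24 : ℝ) hεκ).bound one_pos
    have h2 := tendsto_natCast_atTop_atTop (R := ℝ) |>.eventually h1
    filter_upwards [h2, Filter.eventually_ge_atTop 1] with n hn hn1
    have hn1' : (1 : ℝ) ≤ n := by exact_mod_cast hn1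
    have h0 : 0 ≤ Real.log (n : ℝ) := Real.log_nonneg hn1'
    rw [Real.norm_of_nonneg (Real.rpow_nonneg h0 _), Real.norm_of_nonneg (Real.rpow_nonneg (by linarith) _),
      one_mul, show (24 : ℝ) = ((24 : ℕ) : ℝ) by norm_num, Real.rpow_natCast] at hn
    exact hn
  have hY2e : ∀ᶠ n : ℕ in Filter.atTop, (2 : ℝ) ≤ (n : ℝ) ^ ε :=
    ((tendsto_rpow_atTop hε).comp tendsto_natCast_atTop_atTop).eventually_ge_atTop 2
  obtain ⟨X2, hX2⟩ := Filter.eventually_atTop.mp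
    ((((hlogtend.eventually_ge_atTop (2 / τ + 8)).and
      (hlogtend.eventually_ge_atTop (3 * 3 * 3 * 2 ^ 18 * C / ρ))).and hlo).and hY2e)
  refine ⟨K, by linarith, max X2 16, ?_⟩
  intro X Y hX hXY hYX
  have hXX2 : X2 ≤ X := le_trans (le_max_left _ _) hX
  have hX16 : 16 ≤ X := le_trans (le_max_right _ _) hX
  obtain ⟨⟨⟨hL2, hL3⟩, hlo⟩, hY2⟩ := hX2 X hXX2
  have hXR : (16 : ℝ) ≤ X := by exact_mod_cast hX16
  have hX0 : (0 : ℝ) < X := by linarith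
  have h2τ : 0 < 2 / τ := by positivity
  have hL8 : 8 ≤ Real.log X := by linarith
  have hLτ : 2 ≤ τ * Real.log X := by
    have : 2 / τ ≤ Real.log X := by linarith
    rw [div_le_iff₀ hτ0] at this
    linarith
  have hYR : (2 : ℝ) ≤ Y := hY2.trans hXY
  have hY2N : 2 ≤ Y := by exact_mod_cast hYR
  have hYXR : (Y : ℝ) ≤ X := by exact_mod_cast hYX
  have hY0 : (0 : ℝ) < Y := by linarith
  -- the exceptional set
  set Ex := (Ioc (X - Y) (X - Y + 3 * Y)).filter (fun x => UX (δ / 4) ((Real.log X) ^ 24) (3 * Y) x) with hEx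
  have hW1 : (1 : ℝ) ≤ (Real.log X) ^ 24 := one_le_pow₀ (by linarith)
  have hWκ : (Real.log X) ^ 24 ≤ (((3 * Y : ℕ) : ℝ)) ^ κ := by
    calc (Real.log X) ^ 24 ≤ (X : ℝ) ^ (ε * κ) := hlo
      _ = ((X : ℝ) ^ ε) ^ κ := Real.rpow_mul hX0.le _ _
      _ ≤ (((3 * Y : ℕ) : ℝ)) ^ κ := by
          apply Real.rpow_le_rpow (Real.rpow_nonneg hX0.le _) _ hκ.le
          push_cast
          linarith
  have hExc : (Ex.card : ℝ) ≤ 3 * 2 ^ 18 * C * Y / (Real.log X) ^ 6 := by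
    have h1 := hbt (X - Y) (3 * Y) (by omega) ((Real.log X) ^ 24) hW1 hWκ
    have h2 : ({n : ℕ | X - Y < n ∧ n ≤ X - Y + 3 * Y ∧ ∃ H : ℝ, (Real.log X) ^ 24 ≤ H ∧ H ≤ ((3 * Y : ℕ) : ℝ) ∧
      (4 + δ / 4) * (H / Real.log (((3 * Y : ℕ) : ℝ) * H)) <
        (((Ioc n ⌊(n : ℝ) + H⌋₊).filter Nat.Prime).card : ℝ)} : Set ℕ) = (Ex : Set ℕ) := by
      ext n
      rw [hEx, Finset.coe_filter]
      simp only [Set.mem_setOf_eq, mem_Ioc, UX, and_assoc]
    rw [h2, Set.ncard_coe_finset] at h1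
    refine h1.trans ?_
    have hlog3 : Real.log ((3 * Y : ℕ) : ℝ) ≤ 2 * Real.log X := by
      have h3 : Real.log ((3 * Y : ℕ) : ℝ) ≤ Real.log ((X : ℝ) ^ 2) := by
        apply Real.log_le_log
        · push_cast
          linarith
        · push_cast
          nlinarith
      rw [Real.log_pow] at h3
      push_cast at h3 ⊢
      exact h3
    have hlog30 : 0 ≤ Real.log ((3 * Y : ℕ) : ℝ) := by
      apply Real.log_nonneg
      push_cast
      linarith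
    have hp : (Real.log ((3 * Y : ℕ) : ℝ)) ^ 18 ≤ 2 ^ 18 * (Real.log X) ^ 18 := by
      rw [← mul_pow]
      exact pow_le_pow_left₀ hlog30 hlog3 18
    have hLpos : 0 < Real.log X := by linarith
    calc C * ((3 * Y : ℕ) : ℝ) * (Real.log ((3 * Y : ℕ) : ℝ)) ^ 18 / (Real.log X) ^ 24
        ≤ C * ((3 * Y : ℕ) : ℝ) * (2 ^ 18 * (Real.log X) ^ 18) / (Real.log X) ^ 24 := by
          apply div_le_div_of_nonneg_right _ (by positivity)
          exact mul_le_mul_of_nonneg_left hp (by positivity)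
      _ = 3 * 2 ^ 18 * C * Y / (Real.log X) ^ 6 := by
          push_cast
          field_simp
  -- the scales
  obtain ⟨J, hJ⟩ : ∃ J : ℕ, J = ⌊2 * Real.log X⌋₊ + 1 := ⟨_, rfl⟩
  have hsub : (Ioc X (X + Y)).filter (fun n => ¬ YB M K δ Y n) ⊆
      (range J).biUnion (fun j => (Ioc X (X + Y)).filter
        (fun n => ρ * ((2 ^ j : ℕ) : ℝ) ≤ ((Ex.filter (fun x => n ≤ x + 2 ^ j ∧ x ≤ n + 2 ^ j)).card : ℝ))) := by
    intro n hn
    rw [mem_filter, mem_Ioc] at hn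
    obtain ⟨⟨hXn, hnX⟩, hreg⟩ := hn
    unfold YB at hreg
    push Not at hreg
    obtain ⟨a, b, hnear, hb, hpr⟩ := hreg
    have hcore := coreu M δ τ K hM hδ hδ1 hτ hKA hKM X Y n hXn hnX hYX hY2N (by linarith)
      a b hnear hb hpr
    obtain ⟨ℓ, hℓ⟩ : ∃ ℓ : ℝ, ℓ = b - a := ⟨_, rfl⟩
    obtain ⟨hn1, hn2, hn3⟩ := hnear
    rw [← hℓ] at hn1 hn2 hn3 hb hpr hcore
    have hXnR : (X : ℝ) < n := by exact_mod_cast hXn
    have hnXR : (n : ℝ) ≤ X + Y := by exact_mod_cast hnX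
    have hn0 : (0 : ℝ) < n := by linarith
    have hlog : Real.log X ≤ Real.log n := Real.log_le_log hX0 hXnR.le
    have hK0 : 0 < K := by linarith
    have hK1 : 1 ≤ K := by linarith
    have hℓlog : Real.log X ≤ ℓ := by
      refine le_trans ?_ hb
      calc Real.log X ≤ Real.log n := hlog
        _ = (Real.log n) ^ (1 : ℝ) := (Real.rpow_one _).symm
        _ ≤ (Real.log n) ^ K := Real.rpow_le_rpow_of_exponent_le (by linarith) hK1
    have hℓ0 : 0 < ℓ := by linarith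
    have hℓK : ℓ * (8 * M + 16) ≤ Y := by
      rw [le_div_iff₀ hK0] at hn2
      exact (mul_le_mul_of_nonneg_left hKM hℓ0.le).trans hn2
    have hab := abs_le.1 hn3
    have hMℓ : ℓ ≤ M * ℓ := by nlinarith
    have hτ1 : τ ≤ 1 / 40 := by rw [hτ]; linarith
    have hτℓ2 : 2 ≤ τ * ℓ := hLτ.trans (mul_le_mul_of_nonneg_left hℓlog hτ0.le)
    have hτℓ : τ * ℓ ≤ ℓ / 40 := by nlinarith
    have ha0 : 0 ≤ a - τ * ℓ := by nlinarith
    -- the scale of `(M+1) ℓ`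
    obtain ⟨j, hj1, hj2⟩ : ∃ j : ℕ, (M + 1) * ℓ ≤ ((2 ^ j : ℕ) : ℝ) ∧ ((2 ^ j : ℕ) : ℝ) ≤ 2 * ((M + 1) * ℓ) := by
      have hz : 1 ≤ (M + 1) * ℓ := by nlinarith
      obtain ⟨k, hk1, hk2⟩ := exists_nat_pow_near hz (one_lt_two)
      refine ⟨k + 1, ?_, ?_⟩
      · push_cast
        exact hk2.le
      · push_cast
        rw [pow_succ]
        linarith
    rw [mem_biUnion]
    refine ⟨j, ?_, ?_⟩
    · rw [mem_range, hJ, Nat.lt_succ_iff]
      apply Nat.le_floor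
      have h1 : ((2 ^ j : ℕ) : ℝ) ≤ X := by nlinarith
      push_cast at h1
      have h2 := Real.log_le_log (by positivity) h1
      rw [Real.log_pow] at h2
      have h3 := Real.log_two_gt_d9
      have h4 : (0 : ℝ) ≤ j := Nat.cast_nonneg _
      nlinarith
    · rw [mem_filter, mem_Ioc]
      refine ⟨⟨hXn, hnX⟩, ?_⟩
      have h1 : Icc ⌈a - τ * ℓ⌉₊ ⌊a⌋₊ ⊆ Ex.filter (fun x => n ≤ x + 2 ^ j ∧ x ≤ n + 2 ^ j) := by
        intro x hx
        rw [mem_Icc] at hx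
        have hx1 : a - τ * ℓ ≤ x := (Nat.le_ceil _).trans (by exact_mod_cast hx.1)
        have hx2 : (x : ℝ) ≤ a := (by exact_mod_cast hx.2 : (x : ℝ) ≤ (⌊a⌋₊ : ℝ)).trans
          (Nat.floor_le (by linarith))
        obtain ⟨q1, q2, q3⟩ := hcore x hx1 hx2
        rw [mem_filter, hEx, mem_filter, mem_Ioc]
        refine ⟨⟨⟨q1, q2⟩, q3⟩, ?_, ?_⟩
        · have : (n : ℝ) ≤ ((x + 2 ^ j : ℕ) : ℝ) := by
            push_cast
            push_cast at hj1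
            nlinarith
          exact_mod_cast this
        · have : (x : ℝ) ≤ ((n + 2 ^ j : ℕ) : ℝ) := by
            push_cast
            push_cast at hj1
            nlinarith
          exact_mod_cast this
      have h2 : τ * ℓ / 2 ≤ ((Icc ⌈a - τ * ℓ⌉₊ ⌊a⌋₊).card : ℝ) := by
        rw [Nat.card_Icc]
        have h3 : (⌈a - τ * ℓ⌉₊ : ℝ) < a - τ * ℓ + 1 := Nat.ceil_lt_add_one ha0
        have h4 : a < (⌊a⌋₊ : ℝ) + 1 := Nat.lt_floor_add_one a
        have h5 : ⌈a - τ * ℓ⌉₊ ≤ ⌊a⌋₊ + 1 := by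
          have : (⌈a - τ * ℓ⌉₊ : ℝ) < ((⌊a⌋₊ + 1 : ℕ) : ℝ) := by
            push_cast
            linarith
          exact_mod_cast this.le
        rw [Nat.cast_sub h5]
        push_cast
        linarith
      have h3 : ((Icc ⌈a - τ * ℓ⌉₊ ⌊a⌋₊).card : ℝ) ≤
          ((Ex.filter (fun x => n ≤ x + 2 ^ j ∧ x ≤ n + 2 ^ j)).card : ℝ) := by
        exact_mod_cast card_le_card h1
      have h4 : ρ * ((2 ^ j : ℕ) : ℝ) ≤ τ * ℓ / 2 := by
        calc ρ * ((2 ^ j : ℕ) : ℝ) ≤ ρ * (2 * ((M + 1) * ℓ)) := mul_le_mul_of_nonneg_left hj2 hρ0.le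
          _ = τ * ℓ / 2 := by
              rw [hρ]
              have : M + 1 ≠ 0 := by linarith
              field_simp
              ring
      linarith
  have hcard := (card_le_card hsub).trans card_biUnion_le
  have hcard' : (((Ioc X (X + Y)).filter (fun n => ¬ YB M K δ Y n)).card : ℝ) ≤
      ∑ j ∈ range J, (((Ioc X (X + Y)).filter
        (fun n => ρ * ((2 ^ j : ℕ) : ℝ) ≤ ((Ex.filter (fun x => n ≤ x + 2 ^ j ∧ x ≤ n + 2 ^ j)).card : ℝ))).card : ℝ) := by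
    exact_mod_cast hcard
  refine hcard'.trans ?_
  have hterm : ∀ j ∈ range J, (((Ioc X (X + Y)).filter
        (fun n => ρ * ((2 ^ j : ℕ) : ℝ) ≤ ((Ex.filter (fun x => n ≤ x + 2 ^ j ∧ x ≤ n + 2 ^ j)).card : ℝ))).card : ℝ) ≤
      3 * Ex.card / ρ := fun j _ => dcu Ex (Ioc X (X + Y)) (2 ^ j) Nat.one_le_two_pow ρ hρ0
  refine (sum_le_sum hterm).trans ?_
  rw [sum_const, card_range, nsmul_eq_mul]
  have hJ1 : (J : ℝ) ≤ 3 * Real.log X := by
    rw [hJ]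
    push_cast
    have h1 : (⌊2 * Real.log X⌋₊ : ℝ) ≤ 2 * Real.log X := Nat.floor_le (by linarith)
    linarith
  have hLpos : 0 < Real.log X := by linarith
  calc (J : ℝ) * (3 * Ex.card / ρ) ≤
        (3 * Real.log X) * (3 * (3 * 2 ^ 18 * C * Y / (Real.log X) ^ 6) / ρ) := by
        gcongr
    _ = (3 * 3 * 3 * 2 ^ 18 * C / ρ) * (Y / (Real.log X) ^ 5) := by
        field_simp
    _ ≤ Real.log X * (Y / (Real.log X) ^ 5) := mul_le_mul_of_nonneg_right hL3 (by positivity)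
    _ = Y / (Real.log X) ^ 4 := by
        field_simp
    _ ≤ Y / (Real.log X) ^ 2 := by
        apply div_le_div_of_nonneg_left hY0.le (by positivity)
        exact pow_le_pow_right₀ (by linarith) (by norm_num)

open Classical in
theorem up (M ε η : ℝ) (hM : 1 ≤ M) (hε : 0 < ε) (hη : 0 < η) : ∃ K : ℝ, 0 < K ∧ ∃ X0 : ℕ, ∀ X Y : ℕ,
    X0 ≤ X → (X : ℝ) ^ ε ≤ Y → Y ≤ X →
    (((Ioc X (X + Y)).filter (fun n => ¬ YB M K η Y n)).card : ℝ) ≤ Y / (Real.log X) ^ 2 := by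
  obtain ⟨K, hK, X0, hX0⟩ := up1 M ε (min η 1) hM hε (lt_min hη one_pos) (min_le_right _ _)
  refine ⟨K, by linarith, max X0 3, ?_⟩
  intro X Y hX hXY hYX
  refine le_trans ?_ (hX0 X Y ((le_max_left _ _).trans hX) hXY hYX)
  have hX3 : 3 ≤ X := (le_max_right _ _).trans hX
  have hY1 : (1 : ℝ) ≤ Y := by
    refine le_trans ?_ hXY
    have hX1 : (1 : ℝ) ≤ X := by
      have : 1 ≤ X := by omega
      exact_mod_cast this
    exact Real.one_le_rpow hX1 hε.le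
  have : (Ioc X (X + Y)).filter (fun n => ¬ YB M K η Y n) ⊆
      (Ioc X (X + Y)).filter (fun n => ¬ YB M K (min η 1) Y n) := by
    intro n hn
    rw [mem_filter, mem_Ioc] at hn ⊢
    refine ⟨hn.1, fun h => hn.2 ?_⟩
    intro a b hnear hb
    refine (h a b hnear hb).trans ?_
    have hn3 : (3 : ℝ) ≤ n := by
      have : 3 ≤ n := by omega
      exact_mod_cast this
    have hlog1 : 1 ≤ Real.log n := by
      rw [Real.le_log_iff_exp_le (by linarith)]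
      have := Real.exp_one_lt_d9
      linarith
    have hℓ1 : 1 ≤ b - a := (Real.one_le_rpow hlog1 (by linarith)).trans hb
    apply mul_le_mul_of_nonneg_right
    · have := min_le_left η 1
      linarith
    · apply div_nonneg (by linarith)
      apply Real.log_nonneg
      nlinarith
  exact_mod_cast card_le_card this

end Pool.Agent.H49.RW
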