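import Pool.Agent.H49.RW.Rgn
import Pool.Agent.H49.RW.Low
import Pool.Agent.H49.RW.Cnt
import Pool.Agent.H49.RW.Enp
import Pool.Agent.H49.RW.Trn
import Pool.Agent.H49.RW.Up
import Pool.Agent.H49.RW.Mon

/-!
# [H49 RW FIN] Assembly

PROOF (see `Pool/Agent/H67/RG/Fin.lean`, `fin12`). `C` from `enp ε`, `κ1 = 1/(8 C)` (the constant of (iii)). Given `M, η, c, c'`: `η1 > 0` with `η1 ≤ η/8` and `√(4 C η1) ≤ η/4`;
`δ0 > 0` with `δ0 ≤ η/4`, `δ0² ≤ η C` and `δ0²/(8 C) ≤ η/2`. `K1` from `rgn M (min η1 (η/2)) 2 C` (its `η` is used twice: as bound of the bad set and in `QC`; note `QC` is monotone in `η`),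
`K2` from `low c c' δ0 C`, `K3` from `up M ε η`. `K = 2 K1 + 4 (K2 + 1) + K3 + 2 M + 4` (large enough for `tr_A`, `tr_C`, and for `tr_R` with `H0 = K2 h ≤ K log X`, `h ≤ 3 log X`).
`X` large: `log X ≥ 1`, `K1 log X ≤ Y`, `4 K2 log X ≤ Y`, `1/(log X) ≤ η/8`, `6 log X ≤ (η1) Y` (all from `Y ≥ X^ε`, `isLittleO_log_rpow_atTop`), `X ≥ X0` of `up`.
`L = log X`, `B = X - Y`, `Q m = (B + m).Prime`, `h = ⌈2 L⌉₊` (`2 L ≤ h ≤ 3 L ≤ 4 L`), `s = 0`. `enp` gives `Enr Q L Y C`. `BR` from `rgn`, `BL` from `low`.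
For `Y < m ≤ 2Y`, `n = B + m`, `X < n ≤ X + Y`: `idx h 0 m ∉ BR` gives `YA`, `YC` (`tr_A`, `tr_C`, `Mon`), `idx h 0 m ∉ BL` gives `YR` (`tr_R`). The bijection `m ↦ B + m` of `(Y, 2Y]` and
`(X, X+Y]` transports the counts.
(i) `≤ #{idx ∈ BR} + #{¬YB} ≤ h |BR| + Y/L² ≤ η1 Y + (η/8) Y ≤ η Y` (`int_bad` of H67/RG/Idx).
(ii) `≤ #{Q, idx ∈ BR} + #{Q, idx ∈ BL} + #{¬YB} ≤ (h/L) √(|BR| 4 C Y/h) + (c+c'+δ0) Y/L + Y/L² ≤ (√(4 C η1) + c + c' + δ0 + η/8) Y/L` (`q_bad`, Cauchy-Schwarz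
`(∑_{BR} fq)² ≤ |BR| ∑ fq²`, `fq_energy`).
(iii) If `ρ < c + c' + δ0` then `κ1 (ρ-c-c')² ≤ δ0²/(8C) ≤ η`: trivial. Otherwise `cntq` with `Bad = BL`, `β = c + c' + δ0`, `E = 4 C`, `δ = η/8`:
`((ρ-β)²/(4C) - η/8) Y ≤ #{idx ∉ BL}`, and `(x - δ0)² ≥ x²/2 - δ0²` with `x = ρ - c - c'`; subtract the non regular ones (i).
`pr X (X + Y)` = number of `p ∈ (Y, 2Y]` with `Q p` (`qr_shift`).
-/

set_option autoImplicit false

namespace Pool.Agent.H49.RW

open Finset Pool.Agent.H5.Short Pool.Agent.H67.RG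

private theorem card_shift (B Y : ℕ) (P : ℕ → Prop) (i1 : DecidablePred P)
    (i2 : DecidablePred fun m => P (B + m)) :
    ((Ioc (B + Y) (B + Y + Y)).filter P).card = ((Ioc Y (2 * Y)).filter (fun m => P (B + m))).card := by
  refine card_nbij' (fun n => n - B) (fun m => B + m) ?_ ?_ ?_ ?_
  · intro n hn
    rw [Finset.mem_coe, mem_filter, mem_Ioc] at hn
    rw [Finset.mem_coe, mem_filter, mem_Ioc]
    have e : B + (n - B) = n := by omega
    refine ⟨?_, ?_⟩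
    · show Y < n - B ∧ n - B ≤ 2 * Y
      omega
    · show P (B + (n - B))
      rw [e]
      exact hn.2
  · intro m hm
    rw [Finset.mem_coe, mem_filter, mem_Ioc] at hm
    rw [Finset.mem_coe, mem_filter, mem_Ioc]
    refine ⟨?_, hm.2⟩
    show B + Y < B + m ∧ B + m ≤ B + Y + Y
    omega
  · intro n hn
    rw [Finset.mem_coe, mem_filter, mem_Ioc] at hn
    show B + (n - B) = n
    omega
  · intro m hm
    show B + m - B = m
    omega

private theorem QC_mono_eta {Q : ℕ → Prop} {M K η η' L Y : ℝ} {n : ℕ} (hL : 0 < L) (h : η ≤ η')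
    (hq : QC Q M K η L Y n) : QC Q M K η' L Y n := by
  obtain ⟨T, hT, h1⟩ := hq
  exact ⟨T, hT, fun a b a' b' g1 g2 g3 g4 =>
    (h1 a b a' b' g1 g2 g3 g4).trans (div_le_div_of_nonneg_right h hL.le)⟩

private theorem ev_D (ε D : ℝ) (hε : 0 < ε) (hD : 0 < D) : ∃ X0 : ℕ, ∀ X : ℕ, X0 ≤ X →
    D * Real.log X ≤ (X : ℝ) ^ ε := by
  have h1 := (isLittleO_log_rpow_atTop hε).bound (c := 1 / D) (by positivity)
  have h2 := (tendsto_natCast_atTop_atTop (R := ℝ)).eventually h1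
  obtain ⟨X0, hX0⟩ := Filter.eventually_atTop.mp (h2.and (Filter.eventually_ge_atTop 1))
  refine ⟨X0, fun X hX => ?_⟩
  obtain ⟨h3, h4⟩ := hX0 X hX
  have hX1 : (1 : ℝ) ≤ X := by exact_mod_cast h4
  rw [Real.norm_of_nonneg (Real.log_nonneg hX1), Real.norm_of_nonneg (Real.rpow_nonneg (by linarith) _)] at h3
  calc D * Real.log X ≤ D * (1 / D * (X : ℝ) ^ ε) := mul_le_mul_of_nonneg_left h3 hD.le
    _ = (X : ℝ) ^ ε := by field_simp

open Classical in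
theorem fin (ε : ℝ) (hε : 0 < ε) : ∃ κ : ℝ, 0 < κ ∧ ∀ (M η c c' : ℝ), 1 ≤ M → 0 < η → 0 ≤ c → 0 ≤ c' →
    ∃ K : ℝ, 0 < K ∧ ∃ X0 : ℕ, ∀ X Y : ℕ, X0 ≤ X → (X : ℝ) ^ ε ≤ Y → Y ≤ X →
      (((Ioc X (X + Y)).filter (fun n => ¬ (YA M K Y n ∧ YB M K η Y n ∧ YC M K η Y n))).card : ℝ) ≤ η * Y ∧
      (((Ioc X (X + Y)).filter (fun p => p.Prime ∧
        ¬ (YA M K Y p ∧ YB M K η Y p ∧ YC M K η Y p ∧ YR K c c' Y p))).card : ℝ) ≤
          (c + c' + η) * (Y / Real.log X) ∧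
      ∀ ρ : ℝ, c + c' ≤ ρ → ρ * (Y / Real.log X) ≤ pr X (X + Y) →
        (κ * (ρ - c - c') ^ 2 - η) * Y ≤ (((Ioc X (X + Y)).filter
          (fun n => YA M K Y n ∧ YB M K η Y n ∧ YC M K η Y n ∧ YR K c c' Y n)).card : ℝ) := by
  obtain ⟨C, hC, hen⟩ := enp ε hε
  refine ⟨1 / (8 * C), by positivity, ?_⟩
  intro M η c c' hM hη hc hc'
  obtain ⟨η1, hη1⟩ : ∃ η1 : ℝ, η1 = min (η / 8) ((η / 8) ^ 2 / (4 * C)) := ⟨_, rfl⟩
  have hη10 : 0 < η1 := by rw [hη1]; exact lt_min (by positivity) (by positivity)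
  have hη1a : η1 ≤ η / 8 := by rw [hη1]; exact min_le_left _ _
  have hη1b : η1 * (4 * C) ≤ (η / 8) ^ 2 := by
    have : η1 ≤ (η / 8) ^ 2 / (4 * C) := by rw [hη1]; exact min_le_right _ _
    rwa [le_div_iff₀ (by positivity)] at this
  obtain ⟨δ, hδ⟩ : ∃ δ : ℝ, δ = min (η / 4) (√(η * C)) := ⟨_, rfl⟩
  have hδ0 : 0 < δ := by rw [hδ]; exact lt_min (by positivity) (Real.sqrt_pos.2 (by positivity))
  have hδa : δ ≤ η / 4 := by rw [hδ]; exact min_le_left _ _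
  have hδb : δ ^ 2 ≤ η * C := by
    have h1 : δ ≤ √(η * C) := by rw [hδ]; exact min_le_right _ _
    calc δ ^ 2 ≤ (√(η * C)) ^ 2 := pow_le_pow_left₀ hδ0.le h1 2
      _ = η * C := Real.sq_sqrt (by positivity)
  obtain ⟨K1, hK1, hrgn⟩ := rgn M η1 2 C hM hη10 le_rfl hC
  obtain ⟨K2, hK2, hlow⟩ := low c c' δ C hc hc' hδ0 hC
  obtain ⟨K3, hK3, X3, hX3⟩ := up M ε η hM hε hη
  have hK20 : 0 < K2 := by linarith
  obtain ⟨K, hKd⟩ : ∃ K : ℝ, K = 2 * K1 + 4 * K2 + K3 + 2 * M + 4 := ⟨_, rfl⟩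
  have hKa : 2 * K1 + 2 * M + 2 ≤ K := by linarith
  have hKb : 3 * K2 ≤ K := by linarith
  have hKb1 : K2 ≤ K := by linarith
  have hKc : K3 ≤ K := by linarith
  have hK0 : 0 < K := by linarith
  have hK1' : 1 ≤ K := by linarith
  obtain ⟨D, hD⟩ : ∃ D : ℝ, D = K1 + 3 * K2 + 6 + 48 / η := ⟨_, rfl⟩
  have h48 : 0 < 48 / η := by positivity
  have hD0 : 0 < D := by linarith
  obtain ⟨X4, hX4⟩ := ev_D ε D hε hD0
  have hlogtend : Filter.Tendsto (fun n : ℕ => Real.log (n : ℝ)) Filter.atTop Filter.atTop :=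
    Real.tendsto_log_atTop.comp tendsto_natCast_atTop_atTop
  obtain ⟨X5, hX5⟩ := Filter.eventually_atTop.mp (hlogtend.eventually_ge_atTop (8 / η + 1))
  refine ⟨K, hK0, max (max X3 X4) (max X5 3), ?_⟩
  intro X Y hX hXY hYX
  have g3 : X3 ≤ X := le_trans (le_trans (le_max_left _ _) (le_max_left _ _)) hX
  have g4 : X4 ≤ X := le_trans (le_trans (le_max_right _ _) (le_max_left _ _)) hX
  have g5 : X5 ≤ X := le_trans (le_trans (le_max_left _ _) (le_max_right _ _)) hX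
  have g6 : 3 ≤ X := le_trans (le_trans (le_max_right _ _) (le_max_right _ _)) hX
  have hXR : (3 : ℝ) ≤ X := by exact_mod_cast g6
  have hX0 : (0 : ℝ) < X := by linarith
  have h8η : 0 < 8 / η := by positivity
  obtain ⟨L, hLd⟩ : ∃ L : ℝ, L = Real.log X := ⟨_, rfl⟩
  have hL5 := hX5 X g5
  have hDL : D * L ≤ Y := by
    rw [hLd]
    exact (hX4 X g4).trans hXY
  have hL8 : 8 / η ≤ L := by linarith
  have hL1 : 1 ≤ L := by linarith
  have hL0 : 0 < L := by linarith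
  have hLη : 8 ≤ η * L := by
    rw [div_le_iff₀ hη] at hL8
    linarith
  have hYD : D ≤ Y := by nlinarith
  have hYR : (6 : ℝ) ≤ Y := by linarith
  have hY0 : (0 : ℝ) < Y := by linarith
  have hY2 : 2 ≤ Y := by
    have : (2 : ℝ) ≤ Y := by linarith
    exact_mod_cast this
  have hK1L : K1 * L ≤ Y := by nlinarith
  -- the block length
  obtain ⟨h, hh⟩ : ∃ h : ℕ, h = ⌈2 * L⌉₊ := ⟨_, rfl⟩
  have hh1 : 2 * L ≤ h := by rw [hh]; exact Nat.le_ceil _
  have hh2 : (h : ℝ) < 2 * L + 1 := by rw [hh]; exact Nat.ceil_lt_add_one (by positivity)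
  have hh3 : (h : ℝ) ≤ 3 * L := by linarith
  have hhR : (0 : ℝ) < h := by linarith
  have hh0 : 1 ≤ h := by
    have : (0 : ℝ) < h := by linarith
    exact_mod_cast this
  have hK2h : K2 * h ≤ Y := by
    calc K2 * h ≤ K2 * (3 * L) := mul_le_mul_of_nonneg_left hh3 hK20.le
      _ ≤ Y := by nlinarith
  have h2Y : 2 * h ≤ Y := by
    have : 2 * (h : ℝ) ≤ Y := by nlinarith
    exact_mod_cast this
  have h2Yη : 2 * (h : ℝ) ≤ η / 8 * Y := by
    have e1 : 48 / η * L ≤ Y := by nlinarith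
    have e2 : 48 * L ≤ η * Y := by
      have : η * (48 / η * L) ≤ η * Y := mul_le_mul_of_nonneg_left e1 hη.le
      have e3 : η * (48 / η * L) = 48 * L := by field_simp
      linarith
    linarith
  obtain ⟨Q, hQ⟩ : ∃ Q : ℕ → Prop, Q = fun m => (X - Y + m).Prime := ⟨_, rfl⟩
  have hEnr : Enr Q L Y C := by
    rw [hQ, hLd]
    exact hen X Y (X - Y) g6 hY2 hXY
  obtain ⟨BR, hBR1, hBR2⟩ := hrgn Q L Y hL1 hK1L hEnr h 0 hh1 (by linarith) hh0
  obtain ⟨BL, hBL1, hBL2⟩ := hlow Q L Y hL1 hEnr h 0 (by linarith) hK2h hh0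
  have hE : ∀ R : Finset ℤ, ∑ i ∈ R, (fq Q L Y h 0 i) ^ 2 ≤ 4 * C * ((Y : ℝ) / h) := fun R =>
    fq_energy hL0 hEnr h 0 (by linarith) (by omega) hh0 R
  have hup := hX3 X Y g3 hXY hYX
  rw [← hLd] at hup
  rw [← hLd]
  -- translation
  have hXs : X = X - Y + Y := by omega
  have hshift : ∀ (P : ℕ → Prop) (i1 : DecidablePred P) (i2 : DecidablePred fun m => P (X - Y + m)),
      ((Ioc X (X + Y)).filter P).card = ((Ioc Y (2 * Y)).filter (fun m => P (X - Y + m))).card := by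
    intro P i1 i2
    have := card_shift (X - Y) Y P i1 i2
    rwa [← hXs] at this
  have hlogn : ∀ m : ℕ, Y < m → 1 ≤ Real.log ((X - Y + m : ℕ) : ℝ) := by
    intro m hm
    refine le_trans (by rw [← hLd]; exact hL1 : (1 : ℝ) ≤ Real.log X) ?_
    apply Real.log_le_log hX0
    exact_mod_cast (by omega : X ≤ X - Y + m)
  have hregular : ∀ m, Y < m → m ≤ 2 * Y → idx h 0 m ∉ BR → YB M K3 η Y (X - Y + m) →
      YA M K Y (X - Y + m) ∧ YB M K η Y (X - Y + m) ∧ YC M K η Y (X - Y + m) := by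
    intro m hm1 hm2 hm3 hm4
    obtain ⟨r1, r2⟩ := hBR2 m hm1 hm2 hm3
    rw [hQ, hLd] at r1 r2
    refine ⟨tr_A hM hK1 hKa g6 hYX hm1 hm2 r1, YB_mono hY0.le hK3 hKc (hlogn m hm1) hm4,
      tr_C hM hη hK1 hKa g6 hYX hm1 hm2 (QC_mono_eta ?_ (by linarith) r2)⟩
    rw [← hLd]
    exact hL0
  have hrich : ∀ m, Y < m → m ≤ 2 * Y → idx h 0 m ∉ BL → YR K c c' Y (X - Y + m) := by
    intro m hm1 hm2 hm3
    have r1 := hBL2 m hm1 hm2 hm3
    rw [hQ, hLd] at r1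
    refine tr_R hc hc' hK1' g6 hYX hm1 hm2 ?_ ?_ r1
    · rw [← hLd]
      calc K2 * h ≤ K2 * (3 * L) := mul_le_mul_of_nonneg_left hh3 hK20.le
        _ = 3 * K2 * L := by ring
        _ ≤ K * L := mul_le_mul_of_nonneg_right hKb hL0.le
    · exact div_le_div_of_nonneg_left hY0.le hK20 hKb1
  have hYL : (Y : ℝ) / L ^ 2 ≤ η / 8 * (Y / L) := by
    rw [div_le_iff₀ (by positivity)]
    have e : η / 8 * ((Y : ℝ) / L) * L ^ 2 = (η * L / 8) * Y := by
      field_simp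
    rw [e]
    nlinarith
  have hYL2 : (Y : ℝ) / L ≤ Y := div_le_self hY0.le hL1
  -- integers that are not regular
  have hi : (((Ioc X (X + Y)).filter (fun n => ¬ (YA M K Y n ∧ YB M K η Y n ∧ YC M K η Y n))).card : ℝ) ≤
      η / 4 * Y := by
    have hsub : (Ioc Y (2 * Y)).filter (fun m => ¬ (YA M K Y (X - Y + m) ∧ YB M K η Y (X - Y + m) ∧
        YC M K η Y (X - Y + m))) ⊆
        (Ioc Y (2 * Y)).filter (fun m => idx h 0 m ∈ BR) ∪
        (Ioc Y (2 * Y)).filter (fun m => ¬ YB M K3 η Y (X - Y + m)) := by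
      intro n hn
      rw [mem_filter, mem_Ioc] at hn
      rw [mem_union, mem_filter, mem_filter, mem_Ioc]
      by_contra hcon
      push Not at hcon
      exact hn.2 (hregular n hn.1.1 hn.1.2 (hcon.1 hn.1) (hcon.2 hn.1))
    have h1 := (card_le_card hsub).trans (card_union_le _ _)
    rw [← hshift (fun n => ¬ (YA M K Y n ∧ YB M K η Y n ∧ YC M K η Y n)) _ _,
      ← hshift (fun n => ¬ YB M K3 η Y n) _ _] at h1
    have h2 : (((Ioc X (X + Y)).filter (fun n => ¬ (YA M K Y n ∧ YB M K η Y n ∧ YC M K η Y n))).card : ℝ) ≤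
        (((Ioc Y (2 * Y)).filter (fun m => idx h 0 m ∈ BR)).card : ℝ) +
        (((Ioc X (X + Y)).filter (fun n => ¬ YB M K3 η Y n)).card : ℝ) := by exact_mod_cast h1
    have h3 := int_bad Y h 0 hh0 hh0 h2Y BR
    have h4 : η / 8 * ((Y : ℝ) / L) ≤ η / 8 * Y := mul_le_mul_of_nonneg_left hYL2 (by positivity)
    nlinarith
  refine ⟨hi.trans (by nlinarith), ?_, ?_⟩
  · have hsub : (Ioc Y (2 * Y)).filter (fun m => (X - Y + m).Prime ∧
        ¬ (YA M K Y (X - Y + m) ∧ YB M K η Y (X - Y + m) ∧ YC M K η Y (X - Y + m) ∧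
          YR K c c' Y (X - Y + m))) ⊆
        ((Ioc Y (2 * Y)).filter (fun m => Q m ∧ idx h 0 m ∈ BR) ∪
        (Ioc Y (2 * Y)).filter (fun m => Q m ∧ idx h 0 m ∈ BL)) ∪
        (Ioc Y (2 * Y)).filter (fun m => ¬ YB M K3 η Y (X - Y + m)) := by
      intro n hn
      rw [mem_filter, mem_Ioc] at hn
      have hQn : Q n := by rw [hQ]; exact hn.2.1
      rw [mem_union, mem_union, mem_filter, mem_filter, mem_filter, mem_Ioc]
      by_contra hcon
      push Not at hcon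
      obtain ⟨⟨q1, q2⟩, q3⟩ := hcon
      obtain ⟨r1, r2, r3⟩ := hregular n hn.1.1 hn.1.2 (q1 hn.1 hQn) (q3 hn.1)
      exact hn.2.2 ⟨r1, r2, r3, hrich n hn.1.1 hn.1.2 (q2 hn.1 hQn)⟩
    have h1 := (card_le_card hsub).trans ((card_union_le _ _).trans (Nat.add_le_add_right (card_union_le _ _) _))
    rw [← hshift (fun p => p.Prime ∧ ¬ (YA M K Y p ∧ YB M K η Y p ∧ YC M K η Y p ∧ YR K c c' Y p)) _ _,
      ← hshift (fun n => ¬ YB M K3 η Y n) _ _] at h1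
    have h2 : (((Ioc X (X + Y)).filter (fun p => p.Prime ∧
        ¬ (YA M K Y p ∧ YB M K η Y p ∧ YC M K η Y p ∧ YR K c c' Y p))).card : ℝ) ≤
        (((Ioc Y (2 * Y)).filter (fun m => Q m ∧ idx h 0 m ∈ BR)).card : ℝ) +
        (((Ioc Y (2 * Y)).filter (fun m => Q m ∧ idx h 0 m ∈ BL)).card : ℝ) +
        (((Ioc X (X + Y)).filter (fun n => ¬ YB M K3 η Y n)).card : ℝ) := by exact_mod_cast h1
    have h3 := q_bad Q hL0 Y h 0 hh0 hh0 h2Y BR
    have h4 := q_bad Q hL0 Y h 0 hh0 hh0 h2Y BL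
    have h5 : ∑ i ∈ BR, fq Q L Y h 0 i ≤ η / 8 * (Y / h) := by
      have h6 : (∑ i ∈ BR, fq Q L Y h 0 i) ^ 2 ≤ (η / 8 * (Y / h)) ^ 2 := by
        refine (sq_sum_le_card_mul_sum_sq).trans ?_
        have h7 : (BR.card : ℝ) ≤ η1 * Y / h := by
          rw [le_div_iff₀ hhR]
          exact hBR1
        calc (BR.card : ℝ) * ∑ i ∈ BR, fq Q L Y h 0 i ^ 2 ≤ (η1 * Y / h) * (4 * C * (Y / h)) :=
              mul_le_mul h7 (hE BR) (sum_nonneg fun i _ => sq_nonneg _) (by positivity)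
          _ = (η1 * (4 * C)) * ((Y / h) ^ 2) := by ring
          _ ≤ (η / 8) ^ 2 * ((Y / h) ^ 2) := mul_le_mul_of_nonneg_right hη1b (by positivity)
          _ = (η / 8 * (Y / h)) ^ 2 := by ring
      exact (abs_le_of_sq_le_sq' h6 (by positivity)).2
    have h8 : (h : ℝ) / L * ∑ i ∈ BR, fq Q L Y h 0 i ≤ η / 8 * (Y / L) := by
      calc (h : ℝ) / L * ∑ i ∈ BR, fq Q L Y h 0 i ≤ h / L * (η / 8 * (Y / h)) :=
            mul_le_mul_of_nonneg_left h5 (by positivity)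
        _ = η / 8 * (Y / L) := by field_simp
    have h9 : (h : ℝ) / L * ∑ i ∈ BL, fq Q L Y h 0 i ≤ (c + c' + δ) * (Y / L) := by
      calc (h : ℝ) / L * ∑ i ∈ BL, fq Q L Y h 0 i ≤ h / L * ((c + c' + δ) * (Y / h)) :=
            mul_le_mul_of_nonneg_left hBL1 (by positivity)
        _ = (c + c' + δ) * (Y / L) := by field_simp
    have h10 : 0 ≤ (Y : ℝ) / L := by positivity
    nlinarith
  · intro ρ hρ hpr
    by_cases hρβ : ρ < c + c' + δ
    · refine le_trans ?_ (Nat.cast_nonneg _)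
      have h1 : (ρ - c - c') ^ 2 ≤ δ ^ 2 := pow_le_pow_left₀ (by linarith) (by linarith) 2
      have h2 : 1 / (8 * C) * (ρ - c - c') ^ 2 ≤ η := by
        rw [div_mul_eq_mul_div, one_mul, div_le_iff₀ (by positivity)]
        nlinarith [mul_pos hη hC]
      have h3 : 1 / (8 * C) * (ρ - c - c') ^ 2 - η ≤ 0 := by linarith
      exact mul_nonpos_of_nonpos_of_nonneg h3 hY0.le
    · push Not at hρβ
      have hpr2 : pr (X : ℝ) ((X : ℝ) + Y) = (((Ioc Y (2 * Y)).filter Q).card : ℝ) := by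
        unfold pr
        have e1 : ⌊(X : ℝ) + (Y : ℝ)⌋₊ = X + Y := by
          rw [← Nat.cast_add]
          exact Nat.floor_natCast _
        rw [e1, Nat.floor_natCast, hshift Nat.Prime _ (fun m => Classical.dec _), hQ]
      have hcnt := cntq Q hL0 Y h 0 hh0 hh0 h2Y BL (c + c' + δ) (η / 8) (4 * C) ρ (by positivity)
        (by positivity) h2Yη hρβ (by rw [← hpr2]; exact hpr) hBL1 hE
      have hsub : (Ioc Y (2 * Y)).filter (fun m => idx h 0 m ∉ BL) ⊆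
          (Ioc Y (2 * Y)).filter (fun m => YA M K Y (X - Y + m) ∧ YB M K η Y (X - Y + m) ∧
            YC M K η Y (X - Y + m) ∧ YR K c c' Y (X - Y + m)) ∪
          (Ioc Y (2 * Y)).filter (fun m => ¬ (YA M K Y (X - Y + m) ∧ YB M K η Y (X - Y + m) ∧
            YC M K η Y (X - Y + m))) := by
        intro n hn
        rw [mem_filter, mem_Ioc] at hn
        rw [mem_union, mem_filter, mem_filter, mem_Ioc]
        have hr := hrich n hn.1.1 hn.1.2 hn.2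
        by_cases hreg : YA M K Y (X - Y + n) ∧ YB M K η Y (X - Y + n) ∧ YC M K η Y (X - Y + n)
        · left
          exact ⟨hn.1, hreg.1, hreg.2.1, hreg.2.2, hr⟩
        · right
          exact ⟨hn.1, hreg⟩
      have h1 := (card_le_card hsub).trans (card_union_le _ _)
      rw [← hshift (fun n => YA M K Y n ∧ YB M K η Y n ∧ YC M K η Y n ∧ YR K c c' Y n) _ _,
        ← hshift (fun n => ¬ (YA M K Y n ∧ YB M K η Y n ∧ YC M K η Y n)) _ _] at h1
      have h2 : (((Ioc Y (2 * Y)).filter (fun m => idx h 0 m ∉ BL)).card : ℝ) ≤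
          (((Ioc X (X + Y)).filter
            (fun n => YA M K Y n ∧ YB M K η Y n ∧ YC M K η Y n ∧ YR K c c' Y n)).card : ℝ) +
          (((Ioc X (X + Y)).filter (fun n => ¬ (YA M K Y n ∧ YB M K η Y n ∧ YC M K η Y n))).card : ℝ) := by
        exact_mod_cast h1
      have h3 : 1 / (8 * C) * (ρ - c - c') ^ 2 - η / 4 ≤ (ρ - (c + c' + δ)) ^ 2 / (4 * C) := by
        rw [le_div_iff₀ (by positivity)]
        have e1 : (1 / (8 * C) * (ρ - c - c') ^ 2 - η / 4) * (4 * C) = (ρ - c - c') ^ 2 / 2 - η * C := by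
          field_simp
          ring
        rw [e1]
        nlinarith [sq_nonneg (ρ - c - c' - 2 * δ)]
      have h4 : (1 / (8 * C) * (ρ - c - c') ^ 2 - η / 4 - η / 8) * Y ≤
          ((ρ - (c + c' + δ)) ^ 2 / (4 * C) - η / 8) * Y :=
        mul_le_mul_of_nonneg_right (by linarith) hY0.le
      nlinarith [mul_pos hη hY0]

end Pool.Agent.H49.RW
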