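import Pool.Agent.H49.RW.Dn
import Pool.Agent.H67.RG.Fin2
import Pool.Agent.H1.PS.Fin

/-!
# [H49 RW FX] The full window `Y = X`: the constant `13/50`

PROOF. `fin2 (50/13) _ Pool.Agent.H1.PS.ps M c c' (η/2)` (H67/RG/Fin2) gives `K', X1` and the third clause `((1-c-c')²/(50/13) - η/2) X ≤ #{n ∈ (X,2X] : RegA M K' n, RegB M K' (η/2) n, ..}`.
`K = K' + 1`, `X0 = max X1 3`. For `X < n ≤ 2X` and `K ≥ K'`: if `NearY M K X n a b` then `Near M K' n a b` (`K' log n ≤ K log n ≤ b - a ≤ X/K ≤ n/K'`). So `RegA M K' n → YA M K X n`,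
`RegB M K' (η/2) n → YB M K η X n` (`(log n)^K' ≤ (log n)^K` as `log n ≥ 1`; `log (X (b-a)) ≤ log (n (b-a))`, both positive as `b - a ≥ K log n > 0` and `X (b - a) > 1`),
`RegC M K' (η/2) n → YC M K η X n`, `Rich K' c c' n → YR K c c' X n` (`K' log n ≤ H`, `H ≤ X/K ≤ n` as `K ≥ 1`).
-/

set_option autoImplicit false

namespace Pool.Agent.H49.RW

open Finset Pool.Agent.H5.Short Pool.Agent.H67.RG

open Classical in
theorem fx (M η c c' : ℝ) (hM : 1 ≤ M) (hη : 0 < η) (hc : 0 ≤ c) (hc' : 0 ≤ c') (hcc : c + c' < 1) :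
    ∃ K : ℝ, 0 < K ∧ ∃ X0 : ℕ, ∀ X : ℕ, X0 ≤ X →
      (13 / 50 * (1 - c - c') ^ 2 - η) * X ≤ (((Ioc X (2 * X)).filter
        (fun n => YA M K X n ∧ YB M K η X n ∧ YC M K η X n ∧ YR K c c' X n)).card : ℝ) := by
  obtain ⟨K1, hK1, X1, hX1⟩ := fin2 (50 / 13) (by norm_num) Pool.Agent.H1.PS.ps M c c' (η / 2) hM hc hc' hcc
    (by positivity)
  refine ⟨K1 + 1, by linarith, max X1 3, fun X hX => ?_⟩
  have g1 : X1 ≤ X := (le_max_left _ _).trans hX
  have g2 : 3 ≤ X := (le_max_right _ _).trans hX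
  have hXR : (3 : ℝ) ≤ X := by exact_mod_cast g2
  have hX0 : (0 : ℝ) < X := by linarith
  have hlog1 : 1 ≤ Real.log X := by
    rw [Real.le_log_iff_exp_le (by linarith)]
    have := Real.exp_one_lt_d9
    linarith
  obtain ⟨-, -, r3⟩ := hX1 X g1
  have hsub : (Ioc X (2 * X)).filter (fun n => RegA M K1 n ∧ RegB M K1 (η / 2) n ∧ RegC M K1 (η / 2) n ∧
      Rich K1 c c' n) ⊆ (Ioc X (2 * X)).filter (fun n => YA M (K1 + 1) X n ∧ YB M (K1 + 1) η X n ∧
      YC M (K1 + 1) η X n ∧ YR (K1 + 1) c c' X n) := by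
    intro n hn
    rw [mem_filter, mem_Ioc] at hn ⊢
    obtain ⟨⟨hn1, hn2⟩, hA, hB, hC, hR⟩ := hn
    have hnX : (X : ℝ) < n := by exact_mod_cast hn1
    have hl : Real.log X ≤ Real.log n := Real.log_le_log hX0 hnX.le
    have hl0 : 1 ≤ Real.log n := hlog1.trans hl
    have hnear' : ∀ a b : ℝ, NearY M (K1 + 1) X n a b → 1 ≤ b - a ∧ Near M K1 n a b := by
      intro a b hab
      obtain ⟨h1, h2, h3⟩ := hab
      have h4 : 1 ≤ (K1 + 1) * Real.log n := by nlinarith
      refine ⟨h4.trans h1, ?_, ?_, h3⟩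
      · refine le_trans ?_ h1
        exact mul_le_mul_of_nonneg_right (by linarith) (by linarith)
      · refine h2.trans ?_
        exact div_le_div₀ (by linarith) hnX.le hK1 (by linarith)
    refine ⟨⟨hn1, hn2⟩, ?_, ?_, ?_, ?_⟩
    · intro a b hab
      obtain ⟨h1, h2⟩ := hnear' a b hab
      refine (hA a b h2).trans ?_
      exact mul_le_mul_of_nonneg_right (by linarith) (div_nonneg (by linarith) (by linarith))
    · intro a b hab hb
      obtain ⟨h1, h2⟩ := hnear' a b hab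
      have h3 := hB a b h2 ((Real.rpow_le_rpow_of_exponent_le hl0 (by linarith)).trans hb)
      refine h3.trans ?_
      have h4 : 1 < (X : ℝ) * (b - a) := by nlinarith
      have h5 : 0 < Real.log ((X : ℝ) * (b - a)) := Real.log_pos h4
      have h6 : Real.log ((X : ℝ) * (b - a)) ≤ Real.log (n * (b - a)) :=
        Real.log_le_log (by linarith) (mul_le_mul_of_nonneg_right hnX.le (by linarith))
      have h7 : (b - a) / Real.log (n * (b - a)) ≤ (b - a) / Real.log (X * (b - a)) :=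
        div_le_div_of_nonneg_left (by linarith) h5 h6
      have h8 : 0 ≤ (b - a) / Real.log (X * (b - a)) := div_nonneg (by linarith) h5.le
      calc (4 + η / 2) * ((b - a) / Real.log (n * (b - a))) ≤
          (4 + η / 2) * ((b - a) / Real.log (X * (b - a))) := mul_le_mul_of_nonneg_left h7 (by linarith)
        _ ≤ (4 + η) * ((b - a) / Real.log (X * (b - a))) := mul_le_mul_of_nonneg_right (by linarith) h8
    · obtain ⟨T, hT, hC⟩ := hC
      refine ⟨T, hT.trans (by linarith), fun a b a' b' hab hab' hll hTT => ?_⟩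
      refine (hC a b a' b' (hnear' a b hab).2 (hnear' a' b' hab').2 hll hTT).trans ?_
      exact div_le_div_of_nonneg_right (by linarith) (by linarith)
    · intro H g1 g2
      refine hR H ?_ ?_
      · refine le_trans ?_ g1
        exact mul_le_mul_of_nonneg_right (by linarith) (by linarith)
      · refine g2.trans ?_
        exact (div_le_self hX0.le (by linarith)).trans hnX.le
  have hcard : (((Ioc X (2 * X)).filter (fun n => RegA M K1 n ∧ RegB M K1 (η / 2) n ∧ RegC M K1 (η / 2) n ∧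
      Rich K1 c c' n)).card : ℝ) ≤ (((Ioc X (2 * X)).filter (fun n => YA M (K1 + 1) X n ∧
      YB M (K1 + 1) η X n ∧ YC M (K1 + 1) η X n ∧ YR (K1 + 1) c c' X n)).card : ℝ) := by
    exact_mod_cast card_le_card hsub
  refine le_trans ?_ (r3.trans hcard)
  apply mul_le_mul_of_nonneg_right _ hX0.le
  have e : (1 - c - c') ^ 2 / (50 / 13) = 13 / 50 * (1 - c - c') ^ 2 := by ring
  rw [e]
  linarith

end Pool.Agent.H49.RW
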