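import Pool.Agent.H49.RW.Conv
import Pool.Agent.H67.RG.Reg

/-!
# [H49 RW RGN] Regular points for a set `Q` with bounded second moment

PROOF: copy `Pool/Agent/H67/RG/RegN.lean` (helpers `rn_av`, `rn_one` too) with `fb X h s` replaced by `fq Q L X h s`, `Real.log X` AND `Real.log n` both by `L`, `conv` by `convq`,
`pr` by `qr Q`, `RegA`, `RegC`, `Near M K n` by `QA`, `QC`, `NearL M K L X n`, the constant `C` of `fb_energy` by `4 C` (`fq_energy`; the hypothesis `Enr Q L X C`).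
`C'`, `S0 = C' (4 C)/η`, `K1`, as there, `K = 3 K1 + 2 S0/λ² + 8 κ (K1/λ + 1) + (4 M + 8) + 4 κ + 1` (so that `2 h ≤ 4 κ L ≤ K L ≤ X`).
The condition 'X large' is replaced by `K L ≤ X`; `1 ≤ L` gives `1 ≤ h`. `ℓ ≤ X/K` gives `(4M+8) ℓ ≤ X`. There is room: no factor `log n/log X` is lost here.
`fq_energy` needs `L ≤ h` (`κ ≥ 2`) and `2 h ≤ 3 X`.
-/

set_option autoImplicit false

namespace Pool.Agent.H49.RW

open Finset Pool.Agent.H5.Short Pool.Agent.H67.RG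

private lemma rnq_av (f : ℤ → ℝ) (u w : ℤ) (h : u < w) : ∑ y ∈ Ico u w, f y = ((w : ℝ) - u) * Av f u w := by
  unfold Av
  have h1 : (0 : ℝ) < (w : ℝ) - u := by
    have : (u : ℝ) < w := by exact_mod_cast h
    linarith
  field_simp

private lemma rnq_one (Q : ℕ → Prop) {L : ℝ} (hL : 0 ≤ L) (M : ℝ) (hM : 1 ≤ M) (D : ℕ) (hD : 4 * M + 7 ≤ D) (X h s n m : ℕ) (hh : 1 ≤ h)
    (hs : s < h) (hX : X < n) (hX2 : n ≤ 2 * X) (hm : 3 * X ≤ 2 ^ m * h) (K1 : ℝ)
    (hA : ∀ k ≤ m, ∀ u w : ℤ, Nr D k (idx h s n) u w → |Av (fq Q L X h s) u w| ≤ K1) (a b : ℝ)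
    (h1 : 4 * (h : ℝ) ≤ b - a) (h2 : (2 * M + 4) * (b - a) ≤ X) (h3 : |a - n| ≤ M * (b - a)) :
    ∃ (k : ℕ) (u w u' w' : ℤ), k ≤ m ∧ 2 ^ (k + 1) * (h : ℝ) ≤ b - a ∧ b - a < 2 ^ (k + 2) * (h : ℝ) ∧
      Nr D k (idx h s n) u w ∧ Nr D k (idx h s n) u' w' ∧
      L * (qr Q a b / (b - a)) ≤ Av (fq Q L X h s) u' w' + 2 * (h / (b - a)) * K1 ∧
      Av (fq Q L X h s) u w - 2 * (h / (b - a)) * K1 ≤ L * (qr Q a b / (b - a)) ∧
      Av (fq Q L X h s) u' w' ≤ K1 := by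
  obtain ⟨k, u, w, u', w', c1, c2, c3, c4, c5, c6, c7, c8, c9⟩ :=
    convq Q hL M hM D hD X h s n m a b hh hs hX hX2 h1 h2 h3 hm
  refine ⟨k, u, w, u', w', c1, c2, c3, c4, c5, ?_⟩
  have hh0 : (0 : ℝ) < h := by exact_mod_cast hh
  have hl0 : 0 < b - a := by linarith
  have hp : ∀ u w : ℤ, Nr D k (idx h s n) u w → u < w := by
    intro u w hn
    have e1 := hn.1
    have e2 : (0 : ℤ) < 2 ^ k := by positivity
    omega
  have hn1 := hp _ _ c4
  have hn2 := hp _ _ c5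
  have hav0 : ∀ u w : ℤ, u < w → 0 ≤ Av (fq Q L X h s) u w := by
    intro u w huw
    unfold Av
    have e1 : (0 : ℝ) < (w : ℝ) - u := by
      have : (u : ℝ) < w := by exact_mod_cast huw
      linarith
    exact div_nonneg (sum_nonneg fun y _ => fq_nonneg Q hL X h s y) e1.le
  have hA1 := (le_abs_self _).trans (hA k c1 _ _ c4)
  have hA2 := (le_abs_self _).trans (hA k c1 _ _ c5)
  have hA0 := hav0 _ _ hn1
  have hA0' := hav0 _ _ hn2
  rw [rnq_av _ _ _ hn1] at c6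
  rw [rnq_av _ _ _ hn2] at c7
  have hmul : ∀ Z : ℝ, Z / h * qr Q a b = Z * (qr Q a b / (b - a)) * ((b - a) / h) := by
    intro Z
    field_simp
  rw [hmul] at c6 c7
  have hlh : 0 < (b - a) / h := by positivity
  have hinv : (h / (b - a)) * ((b - a) / h) = 1 := by field_simp
  refine ⟨?_, ?_, hA2⟩
  · refine le_of_mul_le_mul_right ?_ hlh
    calc L * (qr Q a b / (b - a)) * ((b - a) / h) ≤ ((w' : ℝ) - u') * Av (fq Q L X h s) u' w' := c7
      _ ≤ ((b - a) / h + 2) * Av (fq Q L X h s) u' w' := by gcongr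
      _ ≤ (b - a) / h * Av (fq Q L X h s) u' w' + 2 * K1 := by linarith
      _ = (Av (fq Q L X h s) u' w' + 2 * (h / (b - a)) * K1) * ((b - a) / h) := by
          linear_combination -(2 * K1) * hinv
  · refine le_of_mul_le_mul_right ?_ hlh
    calc (Av (fq Q L X h s) u w - 2 * (h / (b - a)) * K1) * ((b - a) / h) =
          (b - a) / h * Av (fq Q L X h s) u w - 2 * K1 := by linear_combination -(2 * K1) * hinv
      _ ≤ ((b - a) / h - 2) * Av (fq Q L X h s) u w := by linarith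
      _ ≤ ((w : ℝ) - u) * Av (fq Q L X h s) u w := by gcongr
      _ ≤ L * (qr Q a b / (b - a)) * ((b - a) / h) := c6

theorem rgn (M η κ C : ℝ) (hM : 1 ≤ M) (hη : 0 < η) (hκ : 2 ≤ κ) (hC : 0 < C) : ∃ K : ℝ, 0 < K ∧
    ∀ (Q : ℕ → Prop) (L : ℝ) (X : ℕ), 1 ≤ L → K * L ≤ X → Enr Q L X C →
    ∀ h s : ℕ, κ * L ≤ h → (h : ℝ) ≤ 2 * κ * L → s < h →
    ∃ Bad : Finset ℤ, (Bad.card : ℝ) * h ≤ η * X ∧
      ∀ n : ℕ, X < n → n ≤ 2 * X → idx h s n ∉ Bad → QA Q M K L X n ∧ QC Q M K η L X n := by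
  obtain ⟨D, hD⟩ := exists_nat_ge (4 * M + 7)
  have hD1 : 1 ≤ D := by
    have : (1 : ℝ) ≤ D := by linarith
    exact_mod_cast this
  obtain ⟨lam, hlam⟩ : ∃ lam : ℝ, lam = η / 10 := ⟨_, rfl⟩
  have hlam0 : 0 < lam := by rw [hlam]; positivity
  obtain ⟨C', hC'⟩ : ∃ C' : ℝ, C' = 1 + 280 * ((D : ℝ) + 1) * (2 * D + 3) := ⟨_, rfl⟩
  have hC'0 : 0 < C' := by rw [hC']; positivity
  obtain ⟨S0, hS0⟩ : ∃ S0 : ℝ, S0 = C' * (4 * C) / η := ⟨_, rfl⟩
  have hS00 : 0 < S0 := by rw [hS0]; positivity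
  obtain ⟨K1, hK1⟩ : ∃ K1 : ℝ, K1 = S0 / lam + lam + √S0 := ⟨_, rfl⟩
  have hK10 : 0 < K1 := by rw [hK1]; positivity
  obtain ⟨K, hK⟩ : ∃ K : ℝ, K = 3 * K1 + 2 * S0 / lam ^ 2 + 8 * κ * (K1 / lam + 1) + (4 * M + 8) + (4 * κ + 1) := ⟨_, rfl⟩
  have hp1 : 0 < 3 * K1 := by positivity
  have hp2 : 0 < 2 * S0 / lam ^ 2 := by positivity
  have hp3 : 0 < 8 * κ * (K1 / lam + 1) := by positivity
  have hp4 : 0 < 4 * M + 8 := by linarith
  have hKa : 3 * K1 ≤ K := by linarith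
  have hKb : 2 * S0 / lam ^ 2 ≤ K := by linarith
  have hKc : 8 * κ * (K1 / lam + 1) ≤ K := by linarith
  have hKd : 4 * M + 8 ≤ K := by linarith
  have hKe : 4 * κ ≤ K := by linarith
  have hK0 : 0 < K := by linarith
  refine ⟨K, hK0, fun Q L X hL1 hKL hen h s hh1 hh2 hs => ?_⟩
  have hlX : 0 < L := by linarith
  have hL : 0 ≤ L := hlX.le
  have hXl : 4 * κ * L ≤ X := (mul_le_mul_of_nonneg_right hKe hL).trans hKL
  have hh : 1 ≤ h := by omega
  have hh0 : (0 : ℝ) < h := by exact_mod_cast hh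
  have h2h : 2 * h ≤ X := by
    have : (2 : ℝ) * h ≤ X := by linarith
    exact_mod_cast this
  have hl3 : L ≤ h := by nlinarith
  obtain ⟨m, hm⟩ : ∃ m, m = 3 * X := ⟨_, rfl⟩
  have hm2 : 3 * X ≤ 2 ^ m * h := by
    have e1 : 3 * X < 2 ^ m := by rw [hm]; exact Nat.lt_two_pow_self
    nlinarith
  obtain ⟨Bad, -, hB2, hB3⟩ := reg (fq Q L X h s) m D hD1 (fq_supp Q L X h s m hh hm2) lam S0 hlam0 hS00
  refine ⟨Bad, ?_, ?_⟩
  · have e1 := fq_energy hlX hen h s hl3 (by omega) hs (Rt m)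
    rw [← hC'] at hB2
    have e2 : S0 * (Bad.card : ℝ) ≤ C' * (4 * C * ((X : ℝ) / h)) := hB2.trans (by gcongr)
    have e3 : S0 * η = C' * (4 * C) := by rw [hS0]; field_simp
    have e4 : S0 * ((Bad.card : ℝ) * h) ≤ S0 * (η * X) := by
      calc S0 * ((Bad.card : ℝ) * h) = (S0 * (Bad.card : ℝ)) * h := by ring
        _ ≤ (C' * (4 * C * ((X : ℝ) / h))) * h := by gcongr
        _ = C' * (4 * C) * X := by field_simp
        _ = S0 * (η * X) := by rw [← e3]; ring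
    exact le_of_mul_le_mul_left e4 hS00
  intro n hn1 hn2 hnB
  have hnR : (X : ℝ) < n := by exact_mod_cast hn1
  have hnR2 : (n : ℝ) ≤ 2 * X := by exact_mod_cast hn2
  obtain ⟨hi1, hi2⟩ := idx_one X h s n hh hs h2h hn1 hn2
  have hiR : idx h s n ∈ Rt m := by
    unfold Rt
    rw [mem_Ico]
    refine ⟨by omega, ?_⟩
    obtain ⟨q, hq⟩ := Int.eq_ofNat_of_zero_le (by omega : 0 ≤ idx h s n)
    rw [hq, Int.toNat_natCast] at hi2
    rw [hq]
    have e1 : (q + 1) * h ≤ 2 ^ m * h := by omega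
    have e2 : q + 1 ≤ 2 ^ m := Nat.le_of_mul_le_mul_right e1 (by omega)
    have e3 : q < 2 ^ m := by omega
    exact_mod_cast e3
  obtain ⟨hA, T0, hT1, hT2⟩ := hB3 (idx h s n) hiR hnB
  rw [← hK1] at hA
  -- facts on near intervals
  have hnear : ∀ a b : ℝ, NearL M K L X n a b → 4 * (h : ℝ) ≤ b - a ∧ (2 * M + 4) * (b - a) ≤ X ∧
      4 * (h / (b - a)) * K1 ≤ lam := by
    intro a b hab
    obtain ⟨e1, e2, e3⟩ := hab
    have e4 : 8 * κ * (K1 / lam + 1) * L ≤ b - a := by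
      calc 8 * κ * (K1 / lam + 1) * L ≤ K * L := by gcongr
        _ ≤ b - a := e1
    have e5 : 4 * (h : ℝ) * (K1 / lam + 1) ≤ b - a := by
      calc 4 * (h : ℝ) * (K1 / lam + 1) ≤ 4 * (2 * κ * L) * (K1 / lam + 1) := by gcongr
        _ = 8 * κ * (K1 / lam + 1) * L := by ring
        _ ≤ b - a := e4
    have e6 : 0 < K1 / lam := by positivity
    have e7 : 4 * (h : ℝ) ≤ b - a := by nlinarith
    have hba : 0 < b - a := by linarith
    refine ⟨e7, ?_, ?_⟩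
    · rw [le_div_iff₀ hK0] at e2
      have e8 : (b - a) * (4 * M + 8) ≤ X := by
        calc (b - a) * (4 * M + 8) ≤ (b - a) * K := by gcongr
          _ ≤ X := e2
      nlinarith
    · have e8 : 4 * (h : ℝ) * (K1 / lam) ≤ b - a := by nlinarith
      have e9 : 4 * (h : ℝ) * K1 ≤ lam * (b - a) := by
        calc 4 * (h : ℝ) * K1 = lam * (4 * (h : ℝ) * (K1 / lam)) := by field_simp
          _ ≤ lam * (b - a) := by gcongr
      calc 4 * (h / (b - a)) * K1 = (4 * (h : ℝ) * K1) / (b - a) := by ring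
        _ ≤ lam := by rw [div_le_iff₀ hba]; exact e9
  constructor
  · intro a b hab
    obtain ⟨n1, n2, n3⟩ := hnear a b hab
    obtain ⟨k, u, w, u', w', -, -, -, -, -, c6, -, c8⟩ :=
      rnq_one Q hL M hM D hD X h s n m hh hs hn1 hn2 hm2 K1 hA a b n1 n2 hab.2.2
    have hba : 0 < b - a := by linarith
    have hq : (h : ℝ) / (b - a) ≤ 1 / 4 := by
      rw [div_le_iff₀ hba]
      linarith
    have e1 : L * (qr Q a b / (b - a)) ≤ 3 / 2 * K1 := by nlinarith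
    have hpr0 : 0 ≤ qr Q a b := by unfold qr; positivity
    have hpr1 : 0 ≤ qr Q a b / (b - a) := div_nonneg hpr0 hba.le
    have e2 : L * (qr Q a b / (b - a)) ≤ K := by linarith
    calc qr Q a b = L * (qr Q a b / (b - a)) * ((b - a) / L) := by field_simp
      _ ≤ K * ((b - a) / L) := by gcongr
  · classical
    refine ⟨T0.image (fun t => 2 ^ (t + 1) * (h : ℝ)), ?_, ?_⟩
    · have e1 : (((T0.image (fun t => 2 ^ (t + 1) * (h : ℝ))).card : ℕ) : ℝ) ≤ T0.card := by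
        exact_mod_cast card_image_le
      have e2 : (T0.card : ℝ) ≤ 2 * S0 / lam ^ 2 := by
        rw [le_div_iff₀ (by positivity), mul_comm]
        exact hT1
      linarith
    · intro a b a' b' hab hab' hll hT
      obtain ⟨n1, n2, n3⟩ := hnear a b hab
      obtain ⟨n1', n2', n3'⟩ := hnear a' b' hab'
      obtain ⟨k, u, w, u', w', c1, c2, c3, c4, c5, c6, c7, c8⟩ :=
        rnq_one Q hL M hM D hD X h s n m hh hs hn1 hn2 hm2 K1 hA a b n1 n2 hab.2.2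
      obtain ⟨k', x, y, x', y', d1, d2, d3, d4, d5, d6, d7, d8⟩ :=
        rnq_one Q hL M hM D hD X h s n m hh hs hn1 hn2 hm2 K1 hA a' b' n1' n2' hab'.2.2
      have hkk : k ≤ k' := by
        have e1 : 2 ^ (k + 1) * (h : ℝ) < 2 ^ (k' + 2) * (h : ℝ) := by linarith
        have e2 : (2 : ℝ) ^ (k + 1) < 2 ^ (k' + 2) := lt_of_mul_lt_mul_right e1 hh0.le
        have e3 := (pow_lt_pow_iff_right₀ (by norm_num : (1 : ℝ) < 2)).1 e2
        omega
      have hT' : ∀ t ∈ T0, ¬ (k ≤ t ∧ t ≤ k') := by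
        rintro t ht ⟨e1, e2⟩
        apply hT (2 ^ (t + 1) * (h : ℝ)) (mem_image_of_mem _ ht)
        have e3 : (2 : ℝ) ^ (k + 1) ≤ 2 ^ (t + 1) := pow_le_pow_right₀ (by norm_num) (by omega)
        have e4 : (2 : ℝ) ^ (t + 1) ≤ 2 ^ (k' + 1) := pow_le_pow_right₀ (by norm_num) (by omega)
        have e5 := mul_le_mul_of_nonneg_right e3 hh0.le
        have e6 := mul_le_mul_of_nonneg_right e4 hh0.le
        have e7 : (2 : ℝ) ^ (k + 2) * h = 2 * (2 ^ (k + 1) * h) := by ring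
        constructor
        · linarith
        · linarith
      have f1 := abs_le.1 (hT2 k k' u' w' x y hkk d1 c5 d4 hT')
      have f2 := abs_le.1 (hT2 k k' u w x' y' hkk d1 c4 d5 hT')
      have hP : |L * (qr Q a b / (b - a)) - L * (qr Q a' b' / (b' - a'))| ≤ 5 * lam := by
        rw [abs_le]
        constructor <;> linarith [f1.1, f1.2, f2.1, f2.2]
      rw [← mul_sub, abs_mul, abs_of_pos hlX] at hP
      have e1 : |qr Q a b / (b - a) - qr Q a' b' / (b' - a')| ≤ 5 * lam / L := by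
        rw [le_div_iff₀ hlX, mul_comm]
        exact hP
      refine e1.trans ?_
      rw [hlam]
      exact div_le_div_of_nonneg_right (by linarith) hL

end Pool.Agent.H49.RW
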